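import Pool.Agent.L7h43.QU.Stm

/-! LINB: the conditions at the cusp `z = 2`. -/

set_option autoImplicit false
set_option linter.unusedSimpArgs false

namespace Pool.Agent.L7h43.QU

open Polynomial

section alg
variable {R : Type*} [CommRing R]

theorem stepB1 {X v A A' An An' G0 N N' M M' H H' Xk Xk' K n : R}
    (hAn : A * An' = n * An * A') (hXk : X * Xk' = K * Xk)
    (hG : Xk * H = An * (G0 * A + v ^ 2 * N) + v ^ 4 * M)
    (hG' : Xk' * H + Xk * H' = An' * (G0 * A + v ^ 2 * N) +
      An * (G0 * A' + (2 * v * N + v ^ 2 * N')) + (4 * v ^ 3 * M + v ^ 4 * M')) :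
    Xk * (A * (K * H + X * H') - (n + 1) * X * A' * H) =
      v * (X * (An * (2 * A * N + v * (A * N' - A' * N)) +
        v ^ 2 * (4 * A * M + v * (A * M' - (n + 1) * A' * M)))) := by
  linear_combination (X * A) * hG' - ((n + 1) * X * A') * hG - (A * H) * hXk +
    (X * (G0 * A + v ^ 2 * N)) * hAn

theorem stepB2 {X v A A' An An' N N' M M' T T' Xk Xk' K n : R}
    (hAn : A * An' = n * An * A') (hXk : X * Xk' = K * Xk)
    (hG : Xk * T = X * (An * N + v ^ 2 * M))
    (hG' : Xk' * T + Xk * T' = (An * N + v ^ 2 * M) + X * (An' * N + An * N' +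
      (2 * v * M + v ^ 2 * M'))) :
    Xk * (A * (K * T + X * T') - (A + n * X * A') * T) =
      X ^ 2 * (An * A * N') + v * (X ^ 2 * (A * (2 * M + v * M') - n * A' * (v * M))) := by
  linear_combination (X * A) * hG' - (A + n * X * A') * hG - (A * T) * hXk +
    (X ^ 2 * N) * hAn

end alg

variable {F : Type} [Field F]

/-- the coordinate `A` -/
noncomputable def Aq (F : Type) [Field F] : F[X] := X * (1 - X) ^ 3

/-- the derivative of `Aq` -/
noncomputable def Aq' (F : Type) [Field F] : F[X] := (1 - X) ^ 3 - 3 * X * (1 - X) ^ 2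

theorem der_Aq : derivative (Aq F) = Aq' F := by
  unfold Aq Aq'
  simp only [derivative_mul, derivative_pow, derivative_sub, derivative_X, derivative_one,
    Nat.add_one_sub_one, map_ofNat, Nat.cast_ofNat]
  ring

theorem ev_Aq : eval 2 (Aq F) = -2 := by
  simp [Aq]
  ring

theorem ev_Aq' : eval 2 (Aq' F) = -7 := by
  simp [Aq']
  ring

theorem X_pow_der (k : ℕ) : (X : F[X]) * derivative (X ^ k) = (k : F[X]) * X ^ k := by
  rw [derivative_X_pow]
  cases k with
  | zero => simp
  | succ k =>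
    rw [Nat.add_sub_cancel, pow_succ]
    simp only [map_natCast]
    ring

theorem A_pow_der (B : F[X]) (n : ℕ) :
    B * derivative (B ^ n) = (n : F[X]) * B ^ n * derivative B := by
  rw [derivative_pow]
  cases n with
  | zero => simp
  | succ k =>
    rw [Nat.add_sub_cancel, pow_succ]
    simp only [map_natCast]
    ring

theorem der_v_pow (m : ℕ) : derivative ((X - 2 : F[X]) ^ (m + 1)) = ((m : F[X]) + 1) * (X - 2) ^ m := by
  have h : derivative (X - 2 : F[X]) = 1 := by
    simp only [derivative_sub, derivative_X, derivative_ofNat, sub_zero]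
  rw [derivative_pow, h, Nat.add_sub_cancel, mul_one]
  simp

/-- the shape of the restriction of a form to the quintic near `z = 2` -/
def GoodB (n : ℕ) (G : F[X]) : Prop := ∃ (c0 c1 : F) (M : F[X]),
  G = Aq F ^ n * (C c0 * Aq F + (X - 2) ^ 2 * (C c1 * (1 - X) ^ 3)) + (X - 2) ^ 4 * M

theorem goodB_add {n : ℕ} {G1 G2 : F[X]} (h1 : GoodB n G1) (h2 : GoodB n G2) : GoodB n (G1 + G2) := by
  obtain ⟨a0, a1, M, h⟩ := h1
  obtain ⟨b0, b1, M', h'⟩ := h2
  refine ⟨a0 + b0, a1 + b1, M + M', ?_⟩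
  rw [h, h']
  simp only [C_add]
  ring

/-- the coordinate `D` -/
noncomputable def Dq (F : Type) [Field F] : F[X] := (X - 2) ^ 2 * (1 - X) ^ 3

/-- the coordinate `B` -/
noncomputable def Bq (F : Type) [Field F] : F[X] := 4 * Dq F + (X - 2) ^ 4 * (4 * X - 1)

theorem pt0q_zero : pt0 F 0 = Dq F := by
  unfold pt0
  rw [Pool.Agent.L7h52.NQ.vec_zero]
  unfold dD Dq
  ring

theorem pt0q_one : pt0 F 1 = Aq F := by
  unfold pt0
  rw [Pool.Agent.L7h52.NQ.vec_one]
  unfold dA Aq
  ring

theorem pt0q_two : pt0 F 2 = Bq F := by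
  unfold pt0
  rw [Pool.Agent.L7h52.NQ.vec_two]
  unfold dB Bq Dq
  ring

theorem goodB_of_dvd {n : ℕ} {G : F[X]} (h : (X - 2 : F[X]) ^ 4 ∣ G) : GoodB n G := by
  obtain ⟨M, hM⟩ := h
  refine ⟨0, 0, M, ?_⟩
  rw [hM]
  simp

theorem goodB_mon {n : ℕ} (c : F) (a b m : ℕ) (h : a + b + m = n + 1) :
    GoodB n (C c * (Dq F ^ a * Aq F ^ b * Bq F ^ m)) := by
  have hD : (X - 2 : F[X]) ^ 2 ∣ Dq F := Dvd.intro _ rfl
  have hB : (X - 2 : F[X]) ^ 2 ∣ Bq F := by
    unfold Bq
    refine dvd_add (hD.mul_left _) (Dvd.dvd.mul_right (pow_dvd_pow _ (by norm_num)) _)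
  rcases Nat.lt_or_ge (a + m) 2 with ham | ham
  · rcases Nat.eq_zero_or_pos (a + m) with h0 | h0
    · have ha : a = 0 := by omega
      have hm : m = 0 := by omega
      have hb : b = n + 1 := by omega
      subst ha hb hm
      refine ⟨c, 0, 0, ?_⟩
      simp only [C_0]
      ring
    · rcases Nat.eq_zero_or_pos a with ha | ha
      · have hm : m = 1 := by omega
        have hb : b = n := by omega
        subst ha hb hm
        refine ⟨0, 4 * c, C c * Aq F ^ b * (4 * X - 1), ?_⟩
        unfold Bq Dq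
        simp only [C_0, C_mul, map_ofNat]
        ring
      · have ha : a = 1 := by omega
        have hm : m = 0 := by omega
        have hb : b = n := by omega
        subst ha hb hm
        refine ⟨0, c, 0, ?_⟩
        unfold Dq
        simp only [C_0]
        ring
  · refine goodB_of_dvd ?_
    apply Dvd.dvd.mul_left
    have h1 : (X - 2 : F[X]) ^ (2 * a) ∣ Dq F ^ a := by
      rw [pow_mul]; exact pow_dvd_pow_of_dvd hD a
    have h2 : (X - 2 : F[X]) ^ (2 * m) ∣ Bq F ^ m := by
      rw [pow_mul]; exact pow_dvd_pow_of_dvd hB m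
    have h3 : (X - 2 : F[X]) ^ 4 ∣ (X - 2) ^ (2 * a) * (X - 2) ^ (2 * m) := by
      rw [← pow_add]
      exact pow_dvd_pow _ (by omega)
    exact h3.trans (mul_dvd_mul (h1.mul_right _) h2)

theorem goodB_pull {n : ℕ} (g : MvPolynomial (ZMod 3) F) (hg : g.IsHomogeneous (n + 1)) :
    GoodB n (pull g) := by
  unfold pull
  rw [MvPolynomial.aeval_def, MvPolynomial.eval₂_eq']
  apply Finset.sum_induction _ (GoodB n) (fun _ _ => goodB_add)
  · exact goodB_of_dvd (dvd_zero _)
  · intro α hα
    have hdeg := hg (MvPolynomial.mem_support_iff.1 hα)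
    rw [Finsupp.weight_apply, Finsupp.sum_fintype _ _ (by simp)] at hdeg
    simp only [Pi.one_apply, smul_eq_mul, mul_one] at hdeg
    have e1 : ∑ i : ZMod 3, α i = α 0 + α 1 + α 2 := Fin.sum_univ_three α
    have e2 : ∏ i : ZMod 3, pt0 F i ^ α i = pt0 F 0 ^ α 0 * pt0 F 1 ^ α 1 * pt0 F 2 ^ α 2 :=
      Fin.prod_univ_three (fun i : ZMod 3 => pt0 F i ^ α i)
    rw [e1] at hdeg
    rw [e2, pt0q_zero, pt0q_one, pt0q_two]
    exact goodB_mon _ _ _ _ hdeg

variable [CharZero F]

theorem s_LINB : S_LINB := by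
  intro F _ _ e k g h he hg hp
  obtain ⟨n, rfl⟩ : ∃ n, e = n + 1 := ⟨e - 1, by omega⟩
  obtain ⟨c0, c1, M, hG⟩ := goodB_pull g hg
  obtain ⟨H, hH⟩ : ∃ H : F[X], H = C (h 0) + C (h 1) * (X - 1) + C (h 2) * (X - 1) ^ 2 +
    C (h 3) * (X - 1) ^ 3 + C (h 4) * (X - 1) ^ 4 := ⟨_, rfl⟩
  have hG2 : (X : F[X]) ^ k * H =
      Aq F ^ n * (C c0 * Aq F + (X - 2) ^ 2 * (C c1 * (1 - X) ^ 3)) + (X - 2) ^ 4 * M := by
    rw [← hG, hp, Fin.sum_univ_five, hH]
    simp
  -- values
  have H0 : eval 2 H = h 0 + h 1 + h 2 + h 3 + h 4 := by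
    rw [hH]
    simp only [eval_add, eval_mul, eval_sub, eval_X, eval_one, eval_C, eval_pow]
    ring
  have H1 : eval 2 (derivative H) = h 1 + 2 * h 2 + 3 * h 3 + 4 * h 4 := by
    rw [hH]
    simp only [derivative_add, derivative_mul, derivative_C, derivative_pow, derivative_sub,
      derivative_X, derivative_one, eval_add, eval_mul, eval_sub, eval_X, eval_one, eval_C, eval_pow,
      Nat.add_one_sub_one, map_ofNat, Nat.cast_ofNat, eval_ofNat, eval_zero]
    ring
  have H2 : eval 2 (derivative (derivative H)) = 2 * h 2 + 6 * h 3 + 12 * h 4 := by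
    rw [hH]
    simp only [derivative_add, derivative_mul, derivative_C, derivative_pow, derivative_sub,
      derivative_X, derivative_one, eval_add, eval_mul, eval_sub, eval_X, eval_one, eval_C, eval_pow,
      Nat.add_one_sub_one, map_ofNat, Nat.cast_ofNat, eval_ofNat, eval_zero, derivative_ofNat,
      derivative_zero]
    ring
  have H3 : eval 2 (derivative (derivative (derivative H))) = 6 * h 3 + 24 * h 4 := by
    rw [hH]
    simp only [derivative_add, derivative_mul, derivative_C, derivative_pow, derivative_sub,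
      derivative_X, derivative_one, eval_add, eval_mul, eval_sub, eval_X, eval_one, eval_C, eval_pow,
      Nat.add_one_sub_one, map_ofNat, Nat.cast_ofNat, eval_ofNat, eval_zero, derivative_ofNat,
      derivative_zero]
    ring
  have A2 : eval 2 (derivative (Aq' F)) = -18 := by
    unfold Aq'
    simp only [derivative_add, derivative_mul, derivative_C, derivative_pow, derivative_sub,
      derivative_X, derivative_one, eval_add, eval_mul, eval_sub, eval_X, eval_one, eval_C, eval_pow,
      Nat.add_one_sub_one, map_ofNat, Nat.cast_ofNat, eval_ofNat, eval_zero, derivative_ofNat,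
      derivative_zero]
    ring
  have A3 : eval 2 (derivative (derivative (Aq' F))) = -30 := by
    unfold Aq'
    simp only [derivative_add, derivative_mul, derivative_C, derivative_pow, derivative_sub,
      derivative_X, derivative_one, eval_add, eval_mul, eval_sub, eval_X, eval_one, eval_C, eval_pow,
      Nat.add_one_sub_one, map_ofNat, Nat.cast_ofNat, eval_ofNat, eval_zero, derivative_ofNat,
      derivative_zero]
    ring
  have hX := X_pow_der (F := F) k
  have hA := A_pow_der (Aq F) n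
  rw [der_Aq] at hA
  have v1 : derivative (X - 2 : F[X]) = 1 := by
    simp only [derivative_sub, derivative_X, derivative_ofNat, sub_zero]
  have v2 : derivative ((X - 2 : F[X]) ^ 2) = 2 * (X - 2) := by
    rw [der_v_pow 1]; push_cast; ring
  have v4 : derivative ((X - 2 : F[X]) ^ 4) = 4 * (X - 2) ^ 3 := by
    rw [der_v_pow 3]; push_cast; ring
  obtain ⟨N, hN⟩ : ∃ N : F[X], N = C c1 * (1 - X) ^ 3 := ⟨_, rfl⟩
  have N0 : eval 2 N = -c1 := by
    rw [hN]
    simp only [eval_mul, eval_sub, eval_X, eval_one, eval_C, eval_pow]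
    ring
  have N1 : eval 2 (derivative N) = -3 * c1 := by
    rw [hN]
    simp only [derivative_mul, derivative_C, derivative_pow, derivative_sub,
      derivative_X, derivative_one, eval_add, eval_mul, eval_sub, eval_X, eval_one, eval_C, eval_pow,
      Nat.add_one_sub_one, map_ofNat, Nat.cast_ofNat, eval_ofNat, eval_zero]
    ring
  rw [← hN] at hG2
  have hG' := congrArg derivative hG2
  simp only [derivative_mul, derivative_add, derivative_C, zero_mul, zero_add] at hG'
  rw [v2, v4, der_Aq] at hG'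
  have key := stepB1 (X := (X : F[X])) (v := X - 2) (A := Aq F) (A' := Aq' F) (An := Aq F ^ n)
    (An' := derivative (Aq F ^ n)) (G0 := C c0) (N := N) (N' := derivative N)
    (M := M) (M' := derivative M) (H := H) (H' := derivative H)
    (Xk := X ^ k) (Xk' := derivative (X ^ k)) (K := (k : F[X])) (n := (n : F[X])) hA hX hG2
    (by linear_combination hG')
  obtain ⟨T1, hT1⟩ : ∃ T1 : F[X], T1 = Aq F * ((k : F[X]) * H + X * derivative H) -
    ((n : F[X]) + 1) * X * Aq' F * H := ⟨_, rfl⟩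
  obtain ⟨P, hP⟩ : ∃ P : F[X], P = 4 * Aq F * M + (X - 2) * (Aq F * derivative M -
    ((n : F[X]) + 1) * Aq' F * M) := ⟨_, rfl⟩
  obtain ⟨Q, hQ⟩ : ∃ Q : F[X], Q = 2 * Aq F * N + (X - 2) * (Aq F * derivative N - Aq' F * N) := ⟨_, rfl⟩
  rw [← hT1, ← hP, ← hQ] at key
  have hv : (X - 2 : F[X]) ≠ 0 := by
    intro h0
    have := congrArg (eval 3) h0
    simp only [eval_sub, eval_X, eval_ofNat, eval_zero] at this
    norm_num at this
  have hcop : IsCoprime (X - 2 : F[X]) (X ^ k) := by
    apply IsCoprime.pow_right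
    refine ⟨-C (1 / 2), C (1 / 2), ?_⟩
    have e2 : C (1 / 2 : F) * 2 = 1 := by
      rw [show (2 : F[X]) = C 2 from (map_ofNat C 2).symm, ← C_mul]
      norm_num
    linear_combination e2
  obtain ⟨T2, hT2⟩ : (X - 2 : F[X]) ∣ T1 := hcop.dvd_of_dvd_mul_left (Dvd.intro _ key.symm)
  have key2 : (X : F[X]) ^ k * T2 = X * (Aq F ^ n * Q + (X - 2) ^ 2 * P) := by
    apply mul_left_cancel₀ hv
    rw [hT2] at key
    linear_combination key
  -- the first equation
  have E1 : eval 2 T1 = 0 := by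
    rw [hT2]
    simp
  have E1' := E1
  rw [hT1] at E1'
  simp only [eval_add, eval_mul, eval_sub, eval_X, eval_one, eval_natCast, ev_Aq, ev_Aq', H0, H1] at E1'
  -- the values of `T2`
  have T20 : eval 2 T2 = eval 2 (derivative T1) := by
    rw [hT2]
    simp only [derivative_mul, v1, eval_add, eval_mul, eval_sub, eval_X, eval_one, eval_ofNat]
    ring
  have T21 : 2 * eval 2 (derivative T2) = eval 2 (derivative (derivative T1)) := by
    rw [hT2]
    simp only [derivative_mul, derivative_add, v1, eval_add, eval_mul, eval_sub, eval_X, eval_one,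
      eval_ofNat, derivative_one, eval_zero]
    ring
  have D1 : eval 2 (derivative T1) = -7 * (k * (h 0 + h 1 + h 2 + h 3 + h 4) +
      2 * (h 1 + 2 * h 2 + 3 * h 3 + 4 * h 4)) - 2 * (k * (h 1 + 2 * h 2 + 3 * h 3 + 4 * h 4) +
      (h 1 + 2 * h 2 + 3 * h 3 + 4 * h 4) + 2 * (2 * h 2 + 6 * h 3 + 12 * h 4)) -
      (n + 1) * (-7 * (h 0 + h 1 + h 2 + h 3 + h 4) - 36 * (h 0 + h 1 + h 2 + h 3 + h 4) -
        14 * (h 1 + 2 * h 2 + 3 * h 3 + 4 * h 4)) := by
    rw [hT1]
    simp only [derivative_mul, derivative_add, derivative_sub, derivative_X, derivative_one,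
      derivative_natCast, der_Aq, eval_add, eval_mul, eval_sub, eval_X, eval_one, eval_zero,
      eval_natCast, ev_Aq, ev_Aq', H0, H1, H2, A2]
    ring
  have D2 : eval 2 (derivative (derivative T1)) = -18 * (k * (h 0 + h 1 + h 2 + h 3 + h 4) +
      2 * (h 1 + 2 * h 2 + 3 * h 3 + 4 * h 4)) - 14 * (k * (h 1 + 2 * h 2 + 3 * h 3 + 4 * h 4) +
      (h 1 + 2 * h 2 + 3 * h 3 + 4 * h 4) + 2 * (2 * h 2 + 6 * h 3 + 12 * h 4)) -
      2 * (k * (2 * h 2 + 6 * h 3 + 12 * h 4) + 2 * (2 * h 2 + 6 * h 3 + 12 * h 4) +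
        2 * (6 * h 3 + 24 * h 4)) -
      (n + 1) * (-36 * (h 0 + h 1 + h 2 + h 3 + h 4) - 14 * (h 1 + 2 * h 2 + 3 * h 3 + 4 * h 4) -
        60 * (h 0 + h 1 + h 2 + h 3 + h 4) - 72 * (h 1 + 2 * h 2 + 3 * h 3 + 4 * h 4) -
        14 * (2 * h 2 + 6 * h 3 + 12 * h 4)) := by
    rw [hT1]
    simp only [derivative_mul, derivative_add, derivative_sub, derivative_X, derivative_one,
      derivative_natCast, der_Aq, eval_add, eval_mul, eval_sub, eval_X, eval_one, eval_zero,
      eval_natCast, ev_Aq, ev_Aq', H0, H1, H2, H3, A2, A3, derivative_zero]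
    ring
  -- the second equation
  have hk2 := congrArg derivative key2
  simp only [derivative_mul, derivative_add, derivative_X, one_mul, v2] at hk2
  have key3 := stepB2 (X := (X : F[X])) (v := X - 2) (A := Aq F) (A' := Aq' F) (An := Aq F ^ n)
    (An' := derivative (Aq F ^ n)) (N := Q) (N' := derivative Q) (M := P) (M' := derivative P)
    (T := T2) (T' := derivative T2) (Xk := X ^ k) (Xk' := derivative (X ^ k)) (K := (k : F[X]))
    (n := (n : F[X])) hA hX key2 (by linear_combination hk2)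
  have Q0 : eval 2 Q = 4 * c1 := by
    rw [hQ]
    simp only [eval_add, eval_mul, eval_sub, eval_X, eval_ofNat, ev_Aq, N0]
    ring
  have Q1 : eval 2 (derivative Q) = 25 * c1 := by
    rw [hQ]
    simp only [derivative_mul, derivative_add, derivative_sub, derivative_X, derivative_ofNat, v1,
      der_Aq, eval_add, eval_mul, eval_sub, eval_X, eval_ofNat, ev_Aq, ev_Aq', N0, N1, eval_one,
      eval_zero]
    ring
  have g1 := congrArg (eval 2) key2
  simp only [eval_add, eval_mul, eval_sub, eval_X, eval_ofNat, eval_pow, ev_Aq, Q0] at g1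
  have g2 := congrArg (eval 2) key3
  simp only [eval_add, eval_mul, eval_sub, eval_X, eval_ofNat, eval_pow, eval_natCast, ev_Aq, ev_Aq',
    Q1] at g2
  have h2k : (2 : F) ^ k ≠ 0 := pow_ne_zero _ two_ne_zero
  have E2 : (27 - 2 * (k : F) + 14 * n) * eval 2 T2 - 4 * eval 2 (derivative T2) = 0 := by
    have : (2 : F) ^ k * ((27 - 2 * (k : F) + 14 * n) * eval 2 T2 - 4 * eval 2 (derivative T2)) = 0 := by
      linear_combination g2 + 25 * g1
    exact (mul_eq_zero.1 this).resolve_left h2k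
  rw [T20] at E2
  have E3 : (27 - 2 * (k : F) + 14 * n) * eval 2 (derivative T1) -
      2 * eval 2 (derivative (derivative T1)) = 0 := by
    linear_combination E2 + 2 * T21
  rw [D1, D2] at E3
  have q1 : ((k : F) - 7 * ((n + 1 : ℕ) : F)) * h 0 + (k - 7 * ((n + 1 : ℕ) : F) + 2) * h 1 +
      (k - 7 * ((n + 1 : ℕ) : F) + 4) * h 2 + (k - 7 * ((n + 1 : ℕ) : F) + 6) * h 3 +
      (k - 7 * ((n + 1 : ℕ) : F) + 8) * h 4 = 0 := by
    have h2 : (2 : F) ≠ 0 := two_ne_zero
    apply mul_left_cancel₀ h2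
    push_cast
    linear_combination (-1 : F) * E1'
  refine ⟨q1, ?_⟩
  push_cast at q1 ⊢
  linear_combination E3 + (54 - 14 * (k : F) + 104 * ((n : F) + 1) + k ^ 2 - 14 * k * ((n : F) + 1) +
    49 * ((n : F) + 1) ^ 2) * q1

end Pool.Agent.L7h43.QU
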