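import Pool.Agent.L7h43.QU.Stm

/-! # Project QU, part ALG: the five equations have only the zero solution -/

set_option maxRecDepth 40000

namespace Pool.Agent.L7h43.QU

/-- minus the determinant, divided by 36 -/
def nd (k e : ℤ) : ℤ :=
  -2916 * k ^ 8 + 22356 * k ^ 7 * e + 180468 * k ^ 6 * e ^ 2 - 913572 * k ^ 5 * e ^ 3 -
      6271200 * k ^ 4 * e ^ 4 + 4929024 * k ^ 3 * e ^ 5 + 89542656 * k ^ 2 * e ^ 6 + 195084288
      * k * e ^ 7 + 134873088 * e ^ 8 - 10692 * k ^ 7 - 439182 * k ^ 6 * e + 2199312 * k ^ 5 *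
      e ^ 2 + 27368730 * k ^ 4 * e ^ 3 - 12102720 * k ^ 3 * e ^ 4 - 544649472 * k ^ 2 * e ^ 5
      - 1455132672 * k * e ^ 6 - 1176526848 * e ^ 7 + 245241 * k ^ 6 - 3022056 * k ^ 5 * e -
      29694285 * k ^ 4 * e ^ 2 - 9038480 * k ^ 3 * e ^ 3 + 1208940720 * k ^ 2 * e ^ 4 +
      4411515456 * k * e ^ 5 + 4001606144 * e ^ 6 + 1735911 * k ^ 5 + 5973165 * k ^ 4 * e +
      21774450 * k ^ 3 * e ^ 2 - 1170166530 * k ^ 2 * e ^ 3 - 6893641680 * k * e ^ 4 -
      6742978464 * e ^ 5 + 2636361 * k ^ 4 - 467050 * k ^ 3 * e + 436804761 * k ^ 2 * e ^ 2 +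
      5786365004 * k * e ^ 3 + 5825647232 * e ^ 4 - 5106483 * k ^ 3 - 4827471 * k ^ 2 * e -
      2444530770 * k * e ^ 2 - 2307088152 * e ^ 3 - 15641046 * k ^ 2 + 409721470 * k * e +
      216167216 * e ^ 2 - 9381096 * k + 48299784 * e

/-- the determinant in the variables `k` and `f = 5 e` -/
def nd8 (k f : ℤ) : ℤ :=
  -1139062500 * k ^ 8 + 1746562500 * k ^ 7 * f + 2819812500 * k ^ 6 * f ^ 2 - 2854912500 *
      k ^ 5 * f ^ 3 - 3919500000 * k ^ 4 * f ^ 4 + 616128000 * k ^ 3 * f ^ 5 + 2238566400 * k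
      ^ 2 * f ^ 6 + 975421440 * k * f ^ 7 + 134873088 * f ^ 8 - 4176562500 * k ^ 7 -
      34311093750 * k ^ 6 * f + 34364250000 * k ^ 5 * f ^ 2 + 85527281250 * k ^ 4 * f ^ 3 -
      7564200000 * k ^ 3 * f ^ 4 - 68081184000 * k ^ 2 * f ^ 5 - 36378316800 * k * f ^ 6 -
      5882634240 * f ^ 7 + 95797265625 * k ^ 6 - 236098125000 * k ^ 5 * f - 463973203125 * k ^
      4 * f ^ 2 - 28245250000 * k ^ 3 * f ^ 3 + 755587950000 * k ^ 2 * f ^ 4 + 551439432000 *
      k * f ^ 5 + 100040153600 * f ^ 6 + 678090234375 * k ^ 5 + 466653515625 * k ^ 4 * f +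
      340225781250 * k ^ 3 * f ^ 2 - 3656770406250 * k ^ 2 * f ^ 3 - 4308526050000 * k * f ^ 4
      - 842872308000 * f ^ 5 + 1029828515625 * k ^ 4 - 36488281250 * k ^ 3 * f + 6825074390625
      * k ^ 2 * f ^ 2 + 18082390637500 * k * f ^ 3 + 3641029520000 * f ^ 4 - 1994719921875 * k
      ^ 3 - 377146171875 * k ^ 2 * f - 38195793281250 * k * f ^ 2 - 7209650475000 * f ^ 3 -
      6109783593750 * k ^ 2 + 32009489843750 * k * f + 3377612750000 * f ^ 2 - 3664490625000 *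
      k + 3773420625000 * f

theorem nd8_eq (k e : ℤ) : 390625 * nd k e = nd8 k (5 * e) := by
  unfold nd nd8
  ring

theorem nd8_pos (a b : ℕ) (hab : 0 < a + b) : 0 < nd8 ((a : ℤ) + 3) ((a : ℤ) + b + 10) := by
  have h : nd8 ((a : ℤ) + 3) ((a : ℤ) + b + 10) =
      ((49827175312500 * a + 48860111250000 * b + (617888928 * a ^ 8 + 7562423184 * a ^ 7 * b + 34738147704 * a ^ 6 * b ^ 2 + 74092338828 *
      a ^ 5 * b ^ 3 + 76320502560 * a ^ 4 * b ^ 4 + 42084269568 * a ^ 3 * b ^ 5 + 12842962944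
      * a ^ 2 * b ^ 6 + 2054406144 * a * b ^ 7 + 134873088 * b ^ 8 + 31263836520 * a ^ 7 +
      306033144240 * a ^ 6 * b + 1076764756770 * a ^ 5 * b ^ 2 + 1689359260950 * a ^ 4 * b ^ 3
      + 1289258395200 * a ^ 3 * b ^ 4 + 508276465920 * a ^ 2 * b ^ 5 + 100166922240 * a * b ^
      6 + 7833477120 * b ^ 7 + 603767344300 * a ^ 6 + 4639427780550 * a ^ 5 * b +
      12160866778875 * a ^ 4 * b ^ 2 + 13947558696000 * a ^ 3 * b ^ 3 + 7588959462000 * a ^ 2
      * b ^ 4 + 1921664020800 * a * b ^ 5 + 181751052800 * b ^ 6 + 5782145494500 * a ^ 5 +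
      33687920675625 * a ^ 4 * b + 64650736882500 * a ^ 3 * b ^ 2 + 52621197476250 * a ^ 2 * b
      ^ 3 + 18411248910000 * a * b ^ 4 + 2223004932000 * b ^ 5 + 29404134313750 * a ^ 4 +
      125734894117500 * a ^ 3 * b + 171461177735625 * a ^ 2 * b ^ 2 + 90518203342500 * a * b ^
      3 + 15278235020000 * b ^ 4 + 78888271425000 * a ^ 3 + 237143313571875 * a ^ 2 * b +
      213305775993750 * a * b ^ 2 + 56315757675000 * b ^ 3 + 102718569343750 * a ^ 2 +
      198639505406250 * a * b + 96004931375000 * b ^ 2) : ℕ) : ℤ) := by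
    unfold nd8
    push_cast
    ring
  have h2 : 0 < 49827175312500 * a + 48860111250000 * b := by omega
  rw [h]
  exact_mod_cast Nat.add_pos_left h2 _

theorem nd_low0 (c : ℕ) : 0 < nd 0 ((c : ℤ) + 3) := by
  have h : nd 0 ((c : ℤ) + 3) =
      ((2141676000 + (134873088 * c ^ 8 + 2060427264 * c ^ 7 + 13282560512 * c ^ 6 + 46850466912 * c ^ 5 +
      97810337312 * c ^ 4 + 121499302056 * c ^ 3 + 84597570968 * c ^ 2 + 27582346368 * c) : ℕ) : ℤ) := by
    unfold nd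
    push_cast
    ring
  rw [h]
  exact_mod_cast Nat.add_pos_left (by norm_num) _

theorem nd_up0 (c : ℕ) : 0 < nd (5 * (c : ℤ) + 11) ((c : ℤ) + 3) := by
  have h : nd (5 * (c : ℤ) + 11) ((c : ℤ) + 3) =
      ((21173325120 + (617888928 * c ^ 8 + 9624291672 * c ^ 7 + 63434238004 * c ^ 6 + 229729669824 * c ^ 5 +
      495615186172 * c ^ 4 + 643005923448 * c ^ 3 + 477594946336 * c ^ 2 + 176030365536 * c) : ℕ) : ℤ) := by
    unfold nd
    push_cast
    ring
  rw [h]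
  exact_mod_cast Nat.add_pos_left (by norm_num) _

theorem nd_low1 (c : ℕ) : 0 < nd 1 ((c : ℤ) + 3) := by
  have h : nd 1 ((c : ℤ) + 3) =
      ((20356587360 + (134873088 * c ^ 8 + 2255511552 * c ^ 7 + 16013740544 * c ^ 6 + 63012572064 * c ^ 5 +
      150184187552 * c ^ 4 + 221802917208 * c ^ 3 + 198028702136 * c ^ 2 + 97647089856 * c) : ℕ) : ℤ) := by
    unfold nd
    push_cast
    ring
  rw [h]
  exact_mod_cast Nat.add_pos_left (by norm_num) _

theorem nd_up1 (c : ℕ) : 0 < nd (5 * (c : ℤ) + 10) ((c : ℤ) + 3) := by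
  have h : nd (5 * (c : ℤ) + 10) ((c : ℤ) + 3) =
      ((76710559680 + (617888928 * c ^ 8 + 10148154024 * c ^ 7 + 70768310932 * c ^ 6 + 273443958432 * c ^ 5 +
      639395155132 * c ^ 4 + 924483834696 * c ^ 3 + 804744245248 * c ^ 2 + 384160212768 * c) : ℕ) : ℤ) := by
    unfold nd
    push_cast
    ring
  rw [h]
  exact_mod_cast Nat.add_pos_left (by norm_num) _

theorem nd_low2 (c : ℕ) : 0 < nd 2 ((c : ℤ) + 3) := by
  have h : nd 2 ((c : ℤ) + 3) =
      ((45318461760 + (134873088 * c ^ 8 + 2450595840 * c ^ 7 + 18924005888 * c ^ 6 + 81338488032 * c ^ 5 +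
      213096151232 * c ^ 4 + 348488179800 * c ^ 3 + 347142505352 * c ^ 2 + 192338733648 * c) : ℕ) : ℤ) := by
    unfold nd
    push_cast
    ring
  rw [h]
  exact_mod_cast Nat.add_pos_left (by norm_num) _

theorem nd_up2 (c : ℕ) : 0 < nd (5 * (c : ℤ) + 9) ((c : ℤ) + 3) := by
  have h : nd (5 * (c : ℤ) + 9) ((c : ℤ) + 3) =
      ((124747349760 + (617888928 * c ^ 8 + 10672016376 * c ^ 7 + 78030549892 * c ^ 6 + 316053180852 * c ^ 5 +
      776637410842 * c ^ 4 + 1186630806144 * c ^ 3 + 1101520021378 * c ^ 2 + 568197217428 * c) : ℕ) : ℤ) := by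
    unfold nd
    push_cast
    ring
  rw [h]
  exact_mod_cast Nat.add_pos_left (by norm_num) _

theorem nd_pos {k e : ℕ} (he : 3 ≤ e) (hk : k + 4 ≤ 5 * e) : 0 < nd k e := by
  obtain ⟨c, rfl⟩ : ∃ c, e = c + 3 := ⟨e - 3, by omega⟩
  by_cases h0 : k = 0
  · subst h0; have := nd_low0 c; push_cast; exact this
  by_cases h1 : k = 1
  · subst h1; have := nd_low1 c; push_cast; exact this
  by_cases h2 : k = 2
  · subst h2; have := nd_low2 c; push_cast; exact this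
  by_cases h3 : k = 5 * c + 11
  · subst h3; have := nd_up0 c; push_cast; exact this
  by_cases h4 : k = 5 * c + 10
  · subst h4; have := nd_up1 c; push_cast; exact this
  by_cases h5 : k = 5 * c + 9
  · subst h5; have := nd_up2 c; push_cast; exact this
  obtain ⟨a, rfl⟩ : ∃ a, k = a + 3 := ⟨k - 3, by omega⟩
  obtain ⟨b, hb⟩ : ∃ b, 5 * (c + 3) = a + b + 10 := ⟨5 * (c + 3) - a - 10, by omega⟩
  have h6 := nd8_pos a b (by omega)
  have h7 := nd8_eq ((a : ℤ) + 3) ((c : ℤ) + 3)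
  have h8 : (5 * ((c : ℤ) + 3)) = (a : ℤ) + b + 10 := by exact_mod_cast hb
  rw [h8] at h7
  push_cast
  omega

/-- a linear system in three unknowns -/
theorem lin3 {F : Type} [Field F] {a1 a2 a3 b1 b2 b3 c1 c2 c3 x y z : F}
    (h1 : a1 * x + a2 * y + a3 * z = 0) (h2 : b1 * x + b2 * y + b3 * z = 0)
    (h3 : c1 * x + c2 * y + c3 * z = 0)
    (hd : a1 * (b2 * c3 - b3 * c2) - a2 * (b1 * c3 - b3 * c1) + a3 * (b1 * c2 - b2 * c1) ≠ 0) :
    x = 0 ∧ y = 0 ∧ z = 0 := by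
  refine ⟨?_, ?_, ?_⟩
  · apply (mul_eq_zero.1 (?_ : (a1 * (b2 * c3 - b3 * c2) - a2 * (b1 * c3 - b3 * c1) +
      a3 * (b1 * c2 - b2 * c1)) * x = 0)).resolve_left hd
    linear_combination (b2 * c3 - b3 * c2) * h1 - (a2 * c3 - a3 * c2) * h2 + (a2 * b3 - a3 * b2) * h3
  · apply (mul_eq_zero.1 (?_ : (a1 * (b2 * c3 - b3 * c2) - a2 * (b1 * c3 - b3 * c1) +
      a3 * (b1 * c2 - b2 * c1)) * y = 0)).resolve_left hd
    linear_combination (-(b1 * c3 - b3 * c1)) * h1 + (a1 * c3 - a3 * c1) * h2 - (a1 * b3 - a3 * b1) * h3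
  · apply (mul_eq_zero.1 (?_ : (a1 * (b2 * c3 - b3 * c2) - a2 * (b1 * c3 - b3 * c1) +
      a3 * (b1 * c2 - b2 * c1)) * z = 0)).resolve_left hd
    linear_combination (b1 * c2 - b2 * c1) * h1 - (a1 * c2 - a2 * c1) * h2 + (a1 * b2 - a2 * b1) * h3

theorem alg_main {F : Type} [Field F] [CharZero F] {e k : ℕ} {h : Fin 5 → F}
    (h12 : Eq12 (k : F) e h) (h3 : Eq3 (k : F) e h) (h45 : Eq45 (k : F) e h) (he : 3 ≤ e)
    (hk : k + 4 ≤ 5 * e) : ∀ j, h j = 0 := by
  obtain ⟨e1, e2⟩ := h12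
  obtain ⟨e4, e5⟩ := h45
  unfold Eq3 at h3
  have hnd : ((nd k e : ℤ) : F) ≠ 0 := by
    exact_mod_cast (nd_pos he hk).ne'
  generalize hh0 : h 0 = x0 at *
  generalize hh1 : h 1 = x1 at *
  generalize hh2 : h 2 = x2 at *
  generalize hh3 : h 3 = x3 at *
  generalize hh4 : h 4 = x4 at *
  have hcast : ((nd k e : ℤ) : F) = -2916 * (k : F) ^ 8 + 22356 * (k : F) ^ 7 * (e : F) + 180468 * (k : F) ^ 6 * (e : F) ^ 2
      - 913572 * (k : F) ^ 5 * (e : F) ^ 3 - 6271200 * (k : F) ^ 4 * (e : F) ^ 4 + 4929024 *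
      (k : F) ^ 3 * (e : F) ^ 5 + 89542656 * (k : F) ^ 2 * (e : F) ^ 6 + 195084288 * (k : F) *
      (e : F) ^ 7 + 134873088 * (e : F) ^ 8 - 10692 * (k : F) ^ 7 - 439182 * (k : F) ^ 6 * (e
      : F) + 2199312 * (k : F) ^ 5 * (e : F) ^ 2 + 27368730 * (k : F) ^ 4 * (e : F) ^ 3 -
      12102720 * (k : F) ^ 3 * (e : F) ^ 4 - 544649472 * (k : F) ^ 2 * (e : F) ^ 5 -
      1455132672 * (k : F) * (e : F) ^ 6 - 1176526848 * (e : F) ^ 7 + 245241 * (k : F) ^ 6 -
      3022056 * (k : F) ^ 5 * (e : F) - 29694285 * (k : F) ^ 4 * (e : F) ^ 2 - 9038480 * (k :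
      F) ^ 3 * (e : F) ^ 3 + 1208940720 * (k : F) ^ 2 * (e : F) ^ 4 + 4411515456 * (k : F) *
      (e : F) ^ 5 + 4001606144 * (e : F) ^ 6 + 1735911 * (k : F) ^ 5 + 5973165 * (k : F) ^ 4 *
      (e : F) + 21774450 * (k : F) ^ 3 * (e : F) ^ 2 - 1170166530 * (k : F) ^ 2 * (e : F) ^ 3
      - 6893641680 * (k : F) * (e : F) ^ 4 - 6742978464 * (e : F) ^ 5 + 2636361 * (k : F) ^ 4
      - 467050 * (k : F) ^ 3 * (e : F) + 436804761 * (k : F) ^ 2 * (e : F) ^ 2 + 5786365004 *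
      (k : F) * (e : F) ^ 3 + 5825647232 * (e : F) ^ 4 - 5106483 * (k : F) ^ 3 - 4827471 * (k
      : F) ^ 2 * (e : F) - 2444530770 * (k : F) * (e : F) ^ 2 - 2307088152 * (e : F) ^ 3 -
      15641046 * (k : F) ^ 2 + 409721470 * (k : F) * (e : F) + 216167216 * (e : F) ^ 2 -
      9381096 * (k : F) + 48299784 * (e : F) := by
    unfold nd
    push_cast
    ring
  rw [hcast] at hnd
  generalize hk' : (k : F) = K at *
  generalize he' : (e : F) = L at *
  obtain ⟨t, ht⟩ : ∃ t : F, x0 = 18 * t := ⟨x0 / 18, by field_simp⟩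
  subst ht
  have ht1 : x1 = -6 * (3 * K + 8 * L) * t := by linear_combination (1 / 3 : F) * e1
  subst ht1
  have ht2 : x2 = ((3 * K + 8 * L) ^ 2 + 9 * K - 52 * L) * t := by linear_combination (1 / 18 : F) * e2
  subst ht2

  have f3 : (26244 * K ^ 5 + 349920 * K ^ 4 * L + 1866240 * K ^ 3 * L ^ 2 + 4976640 * K ^ 2 * L ^ 3 +
      6635520 * K * L ^ 4 + 3538944 * L ^ 5 - 153090 * K ^ 4 - 1632960 * K ^ 3 * L - 6531840 *
      K ^ 2 * L ^ 2 - 11612160 * K * L ^ 3 - 7741440 * L ^ 4 - 486000 * K ^ 3 + 913680 * K ^ 2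
      * L + 5883840 * K * L ^ 2 - 23040 * L ^ 3 + 7290 * K ^ 2 - 1315440 * K * L + 7356960 * L
      ^ 2 + 313956 * K - 2373264 * L) * t +
      (14580 * K ^ 2 + 77760 * K * L + 103680 * L ^ 2 - 82620 * K - 97200 * L - 16200) * x3 + (29160 * K + 77760 * L - 68040) * x4 = 0 := by
    linear_combination h3
  have f4 : (9 * K ^ 3 - 15 * K ^ 2 * L - 272 * K * L ^ 2 - 448 * L ^ 3 + 27 * K ^ 2 + 155 * K * L +
      956 * L ^ 2 + 18 * K - 430 * L) * t +
      (K - 7 * L + 6) * x3 + (K - 7 * L + 8) * x4 = 0 := by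
    linear_combination e4
  have f5 : (9 * K ^ 5 - 141 * K ^ 4 * L + 379 * K ^ 3 * L ^ 2 + 2625 * K ^ 2 * L ^ 3 - 7056 * K * L
      ^ 4 - 21952 * L ^ 5 + 99 * K ^ 4 - 685 * K ^ 3 * L - 1497 * K ^ 2 * L ^ 2 + 963 * K * L
      ^ 3 + 63868 * L ^ 4 + 333 * K ^ 3 - 1491 * K ^ 2 * L + 7820 * K * L ^ 2 - 50486 * L ^ 3
      + 441 * K ^ 2 - 1997 * K * L + 10016 * L ^ 2 + 198 * K - 1446 * L) * t +
      (K ^ 3 - 21 * K ^ 2 * L + 147 * K * L ^ 2 - 343 * L ^ 3 + 18 * K ^ 2 - 234 * K * L + 756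
      * L ^ 2 + 89 * K - 533 * L + 120) * x3 + (K ^ 3 - 21 * K ^ 2 * L + 147 * K * L ^ 2 - 343 * L ^ 3 + 24 * K ^ 2 - 318 * K * L + 1050
      * L ^ 2 + 167 * K - 1043 * L + 336) * x4 = 0 := by
    linear_combination e5
  obtain ⟨g0, g3, g4⟩ := lin3 f3 f4 f5 (by
    intro hd
    apply hnd
    linear_combination (-1 / 36 : F) * hd)
  subst g0
  intro j
  fin_cases j
  · show h 0 = 0
    rw [hh0]; ring
  · show h 1 = 0
    rw [hh1]; ring
  · show h 2 = 0
    rw [hh2]; ring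
  · show h 3 = 0
    rw [hh3]; exact g3
  · show h 4 = 0
    rw [hh4]; exact g4

theorem alg_2_0 {F : Type} [Field F] [CharZero F] {h : Fin 5 → F}
    (h12 : Eq12 (0 : F) 2 h) (h3 : Eq3 (0 : F) 2 h) (h45 : Eq45 (0 : F) 2 h) (z4 : h 4 = 0) : ∀ j, h j = 0 := by
  obtain ⟨e1, e2⟩ := h12
  obtain ⟨e4, e5⟩ := h45
  have e3 := h3
  unfold Eq3 at e3
  have g0 : h 0 = 0 := by
    linear_combination (-134 / 133 : F) * e1 + (53 / 2394 : F) * e2 + (-1 / 107730 : F) * e3 + (-9 / 38 : F) * e4 + (-81 / 133 : F) * z4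
  have g1 : h 1 = 0 := by
    linear_combination (759 / 133 : F) * e1 + (-424 / 3591 : F) * e2 + (8 / 161595 : F) * e3 + (24 / 19 : F) * e4 + (432 / 133 : F) * z4
  have g2 : h 2 = 0 := by
    linear_combination (-72 / 7 : F) * e1 + (275 / 1134 : F) * e2 + (-2 / 25515 : F) * e3 + (-2 / 1 : F) * e4 + (-36 / 7 : F) * z4
  have g3 : h 3 = 0 := by
    linear_combination (806 / 133 : F) * e1 + (-1775 / 10773 : F) * e2 + (31 / 775656 : F) * e3 + (17 / 19 : F) * e4 + (249 / 133 : F) * z4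
  intro j
  fin_cases j
  · exact g0
  · exact g1
  · exact g2
  · exact g3
  · exact z4

theorem alg_2_1 {F : Type} [Field F] [CharZero F] {h : Fin 5 → F}
    (h12 : Eq12 (1 : F) 2 h) (h3 : Eq3 (1 : F) 2 h) (h45 : Eq45 (1 : F) 2 h) (z4 : h 4 = 0) : ∀ j, h j = 0 := by
  obtain ⟨e1, e2⟩ := h12
  obtain ⟨e4, e5⟩ := h45
  have e3 := h3
  unfold Eq3 at e3
  have g0 : h 0 = 0 := by
    linear_combination (545 / 1313 : F) * e1 + (-275 / 23634 : F) * e2 + (7 / 4254120 : F) * e3 + (90 / 1313 : F) * e4 + (198 / 1313 : F) * z4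
  have g1 : h 1 = 0 := by
    linear_combination (-3014 / 1313 : F) * e1 + (5225 / 70902 : F) * e2 + (-133 / 12762360 : F) * e3 + (-570 / 1313 : F) * e4 + (-1254 / 1313 : F) * z4
  have g2 : h 2 = 0 := by
    linear_combination (5282 / 1313 : F) * e1 + (-12379 / 106353 : F) * e2 + (931 / 38287080 : F) * e3 + (1330 / 1313 : F) * e4 + (2926 / 1313 : F) * z4
  have g3 : h 3 = 0 := by
    linear_combination (-3067 / 1313 : F) * e1 + (1966 / 35451 : F) * e2 + (-229 / 12762360 : F) * e3 + (-1169 / 1313 : F) * e4 + (-3097 / 1313 : F) * z4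
  intro j
  fin_cases j
  · exact g0
  · exact g1
  · exact g2
  · exact g3
  · exact z4

theorem alg_2_2 {F : Type} [Field F] [CharZero F] {h : Fin 5 → F}
    (h12 : Eq12 (2 : F) 2 h) (h3 : Eq3 (2 : F) 2 h) (h45 : Eq45 (2 : F) 2 h) (z4 : h 4 = 0) : ∀ j, h j = 0 := by
  obtain ⟨e1, e2⟩ := h12
  obtain ⟨e4, e5⟩ := h45
  have e3 := h3
  unfold Eq3 at e3
  have g0 : h 0 = 0 := by
    linear_combination (463 / 2197 : F) * e1 + (-77 / 13182 : F) * e2 + (1 / 2372760 : F) * e3 + (63 / 2197 : F) * e4 + (9 / 169 : F) * z4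
  have g1 : h 1 = 0 := by
    linear_combination (-2663 / 2197 : F) * e1 + (847 / 19773 : F) * e2 + (-11 / 3559140 : F) * e3 + (-462 / 2197 : F) * e4 + (-66 / 169 : F) * z4
  have g2 : h 2 = 0 := by
    linear_combination (4867 / 2197 : F) * e1 + (-4366 / 59319 : F) * e2 + (199 / 21354840 : F) * e3 + (1393 / 2197 : F) * e4 + (199 / 169 : F) * z4
  have g3 : h 3 = 0 := by
    linear_combination (-229 / 169 : F) * e1 + (526 / 13689 : F) * e2 + (-1 / 123201 : F) * e3 + (-243 / 338 : F) * e4 + (-22 / 13 : F) * z4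
  intro j
  fin_cases j
  · exact g0
  · exact g1
  · exact g2
  · exact g3
  · exact z4

theorem alg_2_3 {F : Type} [Field F] [CharZero F] {h : Fin 5 → F}
    (h12 : Eq12 (3 : F) 2 h) (h3 : Eq3 (3 : F) 2 h) (h45 : Eq45 (3 : F) 2 h) (z4 : h 4 = 0) : ∀ j, h j = 0 := by
  obtain ⟨e1, e2⟩ := h12
  obtain ⟨e4, e5⟩ := h45
  have e3 := h3
  unfold Eq3 at e3
  have g0 : h 0 = 0 := by
    linear_combination (157 / 1053 : F) * e1 + (-329 / 85293 : F) * e2 + (1 / 6141096 : F) * e3 + (19 / 1053 : F) * e4 + (1 / 39 : F) * z4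
  have g1 : h 1 = 0 := by
    linear_combination (-2872 / 3159 : F) * e1 + (8225 / 255879 : F) * e2 + (-25 / 18423288 : F) * e3 + (-475 / 3159 : F) * e4 + (-25 / 117 : F) * z4
  have g2 : h 2 = 0 := by
    linear_combination (16693 / 9477 : F) * e1 + (-94999 / 1535274 : F) * e2 + (137 / 27634932 : F) * e3 + (5206 / 9477 : F) * e4 + (274 / 351 : F) * z4
  have g3 : h 3 = 0 := by
    linear_combination (-10970 / 9477 : F) * e1 + (57197 / 1535274 : F) * e2 + (-671 / 138174660 : F) * e3 + (-6995 / 9477 : F) * e4 + (-479 / 351 : F) * z4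
  intro j
  fin_cases j
  · exact g0
  · exact g1
  · exact g2
  · exact g3
  · exact z4

theorem alg_2_4 {F : Type} [Field F] [CharZero F] {h : Fin 5 → F}
    (h12 : Eq12 (4 : F) 2 h) (h3 : Eq3 (4 : F) 2 h) (h45 : Eq45 (4 : F) 2 h) (z4 : h 4 = 0) : ∀ j, h j = 0 := by
  obtain ⟨e1, e2⟩ := h12
  obtain ⟨e4, e5⟩ := h45
  have e3 := h3
  unfold Eq3 at e3
  have g0 : h 0 = 0 := by
    linear_combination (106 / 891 : F) * e1 + (-409 / 144342 : F) * e2 + (1 / 12990780 : F) * e3 + (25 / 1782 : F) * e4 + (1 / 81 : F) * z4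
  have g1 : h 1 = 0 := by
    linear_combination (-2077 / 2673 : F) * e1 + (5726 / 216513 : F) * e2 + (-7 / 9743085 : F) * e3 + (-350 / 2673 : F) * e4 + (-28 / 243 : F) * z4
  have g2 : h 2 = 0 := by
    linear_combination (13000 / 8019 : F) * e1 + (-74251 / 1299078 : F) * e2 + (179 / 58458510 : F) * e3 + (4475 / 8019 : F) * e4 + (358 / 729 : F) * z4
  have g3 : h 3 = 0 := by
    linear_combination (-349 / 297 : F) * e1 + (1921 / 48114 : F) * e2 + (-29 / 8660520 : F) * e3 + (-511 / 594 : F) * e4 + (-28 / 27 : F) * z4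
  intro j
  fin_cases j
  · exact g0
  · exact g1
  · exact g2
  · exact g3
  · exact z4

theorem alg_2_5 {F : Type} [Field F] [CharZero F] {h : Fin 5 → F}
    (h12 : Eq12 (5 : F) 2 h) (h3 : Eq3 (5 : F) 2 h) (h45 : Eq45 (5 : F) 2 h) (z4 : h 4 = 0) : ∀ j, h j = 0 := by
  obtain ⟨e1, e2⟩ := h12
  obtain ⟨e4, e5⟩ := h45
  have e3 := h3
  unfold Eq3 at e3
  have g0 : h 0 = 0 := by
    linear_combination (271 / 2662 : F) * e1 + (-287 / 127776 : F) * e2 + (1 / 22999680 : F) * e3 + (18 / 1331 : F) * e4 + (9 / 2662 : F) * z4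
  have g1 : h 1 = 0 := by
    linear_combination (-1913 / 2662 : F) * e1 + (8897 / 383328 : F) * e2 + (-31 / 68999040 : F) * e3 + (-186 / 1331 : F) * e4 + (-93 / 2662 : F) * z4
  have g2 : h 2 = 0 := by
    linear_combination (401 / 242 : F) * e1 + (-5959 / 104544 : F) * e2 + (41 / 18817920 : F) * e3 + (82 / 121 : F) * e4 + (41 / 242 : F) * z4
  have g3 : h 3 = 0 := by
    linear_combination (-3701 / 2662 : F) * e1 + (164155 / 3449952 : F) * e2 + (-337 / 124198272 : F) * e3 + (-1567 / 1331 : F) * e4 + (-1449 / 2662 : F) * z4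
  intro j
  fin_cases j
  · exact g0
  · exact g1
  · exact g2
  · exact g3
  · exact z4

theorem alg_2_6 {F : Type} [Field F] [CharZero F] {h : Fin 5 → F}
    (h12 : Eq12 (6 : F) 2 h) (h3 : Eq3 (6 : F) 2 h) (h45 : Eq45 (6 : F) 2 h) (z4 : h 4 = 0) : ∀ j, h j = 0 := by
  obtain ⟨e1, e2⟩ := h12
  obtain ⟨e4, e5⟩ := h45
  have e3 := h3
  unfold Eq3 at e3
  have g0 : h 0 = 0 := by
    linear_combination (5 / 53 : F) * e1 + (-335 / 167904 : F) * e2 + (1 / 30222720 : F) * e3 + (45 / 2332 : F) * e4 + (-81 / 9328 : F) * z4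
  have g1 : h 1 = 0 := by
    linear_combination (-39 / 53 : F) * e1 + (5695 / 251856 : F) * e2 + (-17 / 45334080 : F) * e3 + (-255 / 1166 : F) * e4 + (459 / 4664 : F) * z4
  have g2 : h 2 = 0 := by
    linear_combination (107 / 53 : F) * e1 + (-101303 / 1511136 : F) * e2 + (553 / 272004480 : F) * e3 + (2765 / 2332 : F) * e4 + (-4977 / 9328 : F) * z4
  have g3 : h 3 = 0 := by
    linear_combination (-117 / 53 : F) * e1 + (2549 / 34344 : F) * e2 + (-19 / 6181920 : F) * e3 + (-243 / 106 : F) * e4 + (171 / 212 : F) * z4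
  intro j
  fin_cases j
  · exact g0
  · exact g1
  · exact g2
  · exact g3
  · exact z4

theorem alg_2_7 {F : Type} [Field F] [CharZero F] {h : Fin 5 → F}
    (h12 : Eq12 (7 : F) 2 h) (h3 : Eq3 (7 : F) 2 h) (h45 : Eq45 (7 : F) 2 h) (z4 : h 4 = 0) : ∀ j, h j = 0 := by
  obtain ⟨e1, e2⟩ := h12
  obtain ⟨e4, e5⟩ := h45
  have e3 := h3
  unfold Eq3 at e3
  have g0 : h 0 = 0 := by
    linear_combination (-4 / 1043 : F) * e1 + (23 / 18774 : F) * e2 + (-1 / 13517280 : F) * e3 + (-63 / 596 : F) * e4 + (531 / 4172 : F) * z4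
  have g1 : h 1 = 0 := by
    linear_combination (397 / 1043 : F) * e1 + (-851 / 56322 : F) * e2 + (37 / 40551840 : F) * e3 + (777 / 596 : F) * e4 + (-6549 / 4172 : F) * z4
  have g2 : h 2 = 0 := by
    linear_combination (-4583 / 1043 : F) * e1 + (24659 / 168966 : F) * e2 + (-83 / 15206940 : F) * e3 + (-1162 / 149 : F) * e4 + (9794 / 1043 : F) * z4
  have g3 : h 3 = 0 := by
    linear_combination (11792 / 1043 : F) * e1 + (-20887 / 56322 : F) * e2 + (25 / 2027592 : F) * e3 + (2476 / 149 : F) * e4 + (-21082 / 1043 : F) * z4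
  intro j
  fin_cases j
  · exact g0
  · exact g1
  · exact g2
  · exact g3
  · exact z4

theorem alg_1_0 {F : Type} [Field F] [CharZero F] {h : Fin 5 → F}
    (h12 : Eq12 (0 : F) 1 h) (h3 : Eq3 (0 : F) 1 h) (h45 : Eq45 (0 : F) 1 h) (z2 : h 2 = 0) (z3 : h 3 = 0) (z4 : h 4 = 0) : ∀ j, h j = 0 := by
  obtain ⟨e1, e2⟩ := h12
  obtain ⟨e4, e5⟩ := h45
  have e3 := h3
  unfold Eq3 at e3
  have g0 : h 0 = 0 := by
    linear_combination (4 / 3 : F) * e1 + (-1 / 12 : F) * e2 + (3 / 2 : F) * z2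
  have g1 : h 1 = 0 := by
    linear_combination (-29 / 9 : F) * e1 + (2 / 9 : F) * e2 + (-4 / 1 : F) * z2
  intro j
  fin_cases j
  · exact g0
  · exact g1
  · exact z2
  · exact z3
  · exact z4

theorem alg_1_1 {F : Type} [Field F] [CharZero F] {h : Fin 5 → F}
    (h12 : Eq12 (1 : F) 1 h) (h3 : Eq3 (1 : F) 1 h) (h45 : Eq45 (1 : F) 1 h) (z2 : h 2 = 0) (z3 : h 3 = 0) (z4 : h 4 = 0) : ∀ j, h j = 0 := by
  obtain ⟨e1, e2⟩ := h12
  obtain ⟨e4, e5⟩ := h45
  have e3 := h3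
  unfold Eq3 at e3
  have g0 : h 0 = 0 := by
    linear_combination (11 / 39 : F) * e1 + (-1 / 78 : F) * e2 + (3 / 13 : F) * z2
  have g1 : h 1 = 0 := by
    linear_combination (-82 / 117 : F) * e1 + (11 / 234 : F) * e2 + (-11 / 13 : F) * z2
  intro j
  fin_cases j
  · exact g0
  · exact g1
  · exact z2
  · exact z3
  · exact z4

theorem alg_1_2 {F : Type} [Field F] [CharZero F] {h : Fin 5 → F}
    (h12 : Eq12 (2 : F) 1 h) (h3 : Eq3 (2 : F) 1 h) (h45 : Eq45 (2 : F) 1 h) (z2 : h 2 = 0) (z3 : h 3 = 0) (z4 : h 4 = 0) : ∀ j, h j = 0 := by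
  obtain ⟨e1, e2⟩ := h12
  obtain ⟨e4, e5⟩ := h45
  have e3 := h3
  unfold Eq3 at e3
  have g0 : h 0 = 0 := by
    linear_combination (14 / 81 : F) * e1 + (-1 / 162 : F) * e2 + (1 / 9 : F) * z2
  have g1 : h 1 = 0 := by
    linear_combination (-115 / 243 : F) * e1 + (7 / 243 : F) * e2 + (-14 / 27 : F) * z2
  intro j
  fin_cases j
  · exact g0
  · exact g1
  · exact z2
  · exact z3
  · exact z4

theorem alg_1_3 {F : Type} [Field F] [CharZero F] {h : Fin 5 → F}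
    (h12 : Eq12 (3 : F) 1 h) (h3 : Eq3 (3 : F) 1 h) (h45 : Eq45 (3 : F) 1 h) (z2 : h 2 = 0) (z3 : h 3 = 0) (z4 : h 4 = 0) : ∀ j, h j = 0 := by
  obtain ⟨e1, e2⟩ := h12
  obtain ⟨e4, e5⟩ := h45
  have e3 := h3
  unfold Eq3 at e3
  have g0 : h 0 = 0 := by
    linear_combination (17 / 132 : F) * e1 + (-1 / 264 : F) * e2 + (3 / 44 : F) * z2
  have g1 : h 1 = 0 := by
    linear_combination (-157 / 396 : F) * e1 + (17 / 792 : F) * e2 + (-17 / 44 : F) * z2
  intro j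
  fin_cases j
  · exact g0
  · exact g1
  · exact z2
  · exact z3
  · exact z4

theorem alg_1_4 {F : Type} [Field F] [CharZero F] {h : Fin 5 → F}
    (h12 : Eq12 (4 : F) 1 h) (h3 : Eq3 (4 : F) 1 h) (h45 : Eq45 (4 : F) 1 h) (z2 : h 2 = 0) (z3 : h 3 = 0) (z4 : h 4 = 0) : ∀ j, h j = 0 := by
  obtain ⟨e1, e2⟩ := h12
  obtain ⟨e4, e5⟩ := h45
  have e3 := h3
  unfold Eq3 at e3
  have g0 : h 0 = 0 := by
    linear_combination (5 / 48 : F) * e1 + (-1 / 384 : F) * e2 + (3 / 64 : F) * z2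
  have g1 : h 1 = 0 := by
    linear_combination (-13 / 36 : F) * e1 + (5 / 288 : F) * e2 + (-5 / 16 : F) * z2
  intro j
  fin_cases j
  · exact g0
  · exact g1
  · exact z2
  · exact z3
  · exact z4

theorem s_ALG : S_ALG := by
  intro F _ _ e k h h12 h3 h45 hc
  rcases hc with ⟨he, hk⟩ | ⟨he, hk, h4⟩ | ⟨he, hk, h2, hh3, h4⟩
  · exact alg_main h12 h3 h45 he hk
  · subst he
    have hk8 : k < 8 := by omega
    interval_cases k
    · exact alg_2_0 (by simpa using h12) (by simpa using h3) (by simpa using h45) h4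
    · exact alg_2_1 (by simpa using h12) (by simpa using h3) (by simpa using h45) h4
    · exact alg_2_2 (by simpa using h12) (by simpa using h3) (by simpa using h45) h4
    · exact alg_2_3 (by simpa using h12) (by simpa using h3) (by simpa using h45) h4
    · exact alg_2_4 (by simpa using h12) (by simpa using h3) (by simpa using h45) h4
    · exact alg_2_5 (by simpa using h12) (by simpa using h3) (by simpa using h45) h4
    · exact alg_2_6 (by simpa using h12) (by simpa using h3) (by simpa using h45) h4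
    · exact alg_2_7 (by simpa using h12) (by simpa using h3) (by simpa using h45) h4
  · subst he
    have hk5 : k < 5 := by omega
    interval_cases k
    · exact alg_1_0 (by simpa using h12) (by simpa using h3) (by simpa using h45) h2 hh3 h4
    · exact alg_1_1 (by simpa using h12) (by simpa using h3) (by simpa using h45) h2 hh3 h4
    · exact alg_1_2 (by simpa using h12) (by simpa using h3) (by simpa using h45) h2 hh3 h4
    · exact alg_1_3 (by simpa using h12) (by simpa using h3) (by simpa using h45) h2 hh3 h4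
    · exact alg_1_4 (by simpa using h12) (by simpa using h3) (by simpa using h45) h2 hh3 h4

end Pool.Agent.L7h43.QU
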