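import Pool.Agent.L7h43.QU.Num

/-! 35 points: the windows. -/

set_option autoImplicit false

namespace Pool.Agent.L7h43.QU

open Finset Pool.Agent.TH176.Nag Pool.Agent.TH603.Sur Pool.Agent.TH603.Cut Pool.Agent.TH469.SX
open Pool.Agent.TH864.SX (Slp)

/-- five sectors, independence, all degrees but those `1` modulo `5` -/
def S_FIVES : Prop := ∀ (K : ℝ) (d : ℕ), Irrational K → 5 < K → K < 6 → d % 5 ≠ 1 →
  ∀ (ι : Type) [Fintype ι] (w : ι → ℕ), Sur w (B5 5 K d) → Sur (five w) (E5 ((15 - K) / 25) d)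

/-- **35 points: independence** -/
theorem sur35 (P : Parts) (hF : S_FIVES) {m d : ℕ} (h5 : d % 5 ≠ 1)
    (h : 35 * (2 * (m : ℝ) + 1) ≤ √((35 : ℕ) : ℝ) * (2 * d + 3)) :
    Sur (fun _ : Fin 35 => m) (TZ d) := by
  obtain ⟨r, hr⟩ : ∃ r : ℝ, r = √((35 : ℕ) : ℝ) := ⟨_, rfl⟩
  have hr0 : 0 ≤ r := by rw [hr]; exact Real.sqrt_nonneg _
  have hr2 : r * r = 35 := by rw [hr]; exact_mod_cast sqn 35
  have hr3 : 5.9 < r := by nlinarith
  rw [← hr] at h
  have hsl := slp35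
  have hlt := lt35
  rw [← hr] at hsl hlt
  obtain ⟨K, hK⟩ : ∃ K : ℝ, K = (((5 : ℕ) : ℝ) + (1 : ℕ) * r) / 2 := ⟨_, rfl⟩
  rw [← hK] at hsl hlt
  push_cast at hK
  have hK0 := hsl.K0
  have hKe : ((2 : ℕ) : ℝ) * (K * (K - ((5 : ℕ) : ℝ))) = ((5 : ℕ) : ℝ) := hsl.eq
  have hK5 : (5 : ℝ) < K := by have := hsl.hMK; push_cast at this; exact this
  have hcrit : 2 * AA K d - (2 * m * (K + 1) + 1) =
      (5 + r) / (5 * r) * ((r * (2 * d + 3) - 35 * (2 * m + 1)) / 2) := by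
    unfold AA
    rw [hK]
    have : r ≠ 0 := by linarith
    field_simp
    linear_combination (-(10 : ℝ) * m - 5) * hr2
  have hc0 : 0 < (5 + r) / (5 * r) := by positivity
  have h2 : 0 ≤ (5 + r) / (5 * r) * ((r * (2 * d + 3) - 35 * (2 * m + 1)) / 2) :=
    mul_nonneg hc0.le (by linarith)
  have hS : Sur (fun _ : Fin 7 => m) (Fl 2 K (AA K d)) :=
    Sur_blk (p := 1) (M := 5) rfl hK0 hKe (by simp) (by push_cast; linarith)
  have h1 := P.fls 5 2 K d (Fin 7) (fun _ => m) hsl hS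
  have h3 := hF K d hsl.irr hK5 hlt h5 (Fin 7) (fun _ => m) h1
  have hirr : Irrational ((15 - K) / 25) := by
    have := (hsl.irr.natCast_sub 15).div_natCast (m := 25) (by norm_num)
    simpa using this
  have h4 := P.sur _ _ d ((15 - K) / 25) (by linarith) (by linarith) hirr h3
  exact Sur_fin (ι := ((((Fin 7 ⊕ Fin 7) ⊕ Fin 7) ⊕ Fin 7) ⊕ Fin 7))
    (by rintro ((((i | i) | i) | i) | i) <;> rfl) (by simp) h4

/-- **35 points: emptiness or independence**, all degrees but those `1` modulo `5` -/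
theorem dich35' (P : Parts) (hF : S_FIVES) (hO : Pool.Agent.L7h52.NQ.S_ONEX) {m d : ℕ} (h5 : d % 5 ≠ 1)
    (hG : ¬ (√((35 : ℕ) : ℝ) * (2 * d + 3) < 35 * (2 * m + 1) ∧
      (d % 5 = 0 ∧ 1 - 1 / √((35 : ℕ) : ℝ) ≤ (d : ℝ) - √((35 : ℕ) : ℝ) * m ∨
        d % 5 = 2 ∧ 18 / 19 ≤ (d : ℝ) - √((35 : ℕ) : ℝ) * m))) :
    Emp (fun _ : Fin 35 => m) (TZ d) ∨ Sur (fun _ : Fin 35 => m) (TZ d) := by
  rcases Nat.eq_zero_or_pos d with rfl | hd
  · exact Pool.Agent.L7h52.NQ.dich_zero (by norm_num) m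
  by_cases h : 35 * (2 * (m : ℝ) + 1) ≤ √((35 : ℕ) : ℝ) * (2 * d + 3)
  · exact Or.inr (sur35 P hF h5 h)
  by_cases h3 : 3 ≤ d % 5
  · exact dich35 P h3
  left
  obtain ⟨r, hr⟩ : ∃ r : ℝ, r = √((35 : ℕ) : ℝ) := ⟨_, rfl⟩
  have hr0 : 0 ≤ r := by rw [hr]; exact Real.sqrt_nonneg _
  have hr2 : r * r = 35 := by rw [hr]; exact_mod_cast sqn 35
  have hr3 : 5.9 < r := by nlinarith
  rw [← hr] at hG h
  push Not at h
  by_cases h2 : d % 5 = 2
  · have hx : (d : ℝ) - r * m < 18 / 19 := by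
      by_contra hcon
      exact hG ⟨h, Or.inr ⟨h2, not_lt.1 hcon⟩⟩
    refine nag25 P.emp (by simp) (Or.inr ⟨by omega, ?_⟩)
    rw [Finset.sum_const, Finset.card_univ, Fintype.card_fin, nsmul_eq_mul, ← hr]
    have h4 : r * ((d : ℝ) - 18 / 19) < r * (r * m) := mul_lt_mul_of_pos_left (by linarith) (by linarith)
    refine h4.trans_eq ?_
    push_cast
    linear_combination (m : ℝ) * hr2
  have h0 : d % 5 = 0 := by omega
  have hx : (d : ℝ) - r * m < 1 - 1 / r := by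
    by_contra hcon
    exact hG ⟨h, Or.inl ⟨h0, not_lt.1 hcon⟩⟩
  rcases Nat.eq_zero_or_pos m with rfl | hm
  · exfalso
    have h4 : 0 < 1 / r := by positivity
    have h6 : (d : ℝ) < 1 := by push_cast at hx; linarith
    have h7 : d < 1 := by exact_mod_cast h6
    omega
  · refine nag25z P.emp hO (by simp) (Or.inl ⟨h5, ⟨0, hm⟩, ?_⟩)
    rw [Finset.sum_const, Finset.card_univ, Fintype.card_fin, nsmul_eq_mul, ← hr]
    have h4 : r * ((d : ℝ) - r * m) < r * (1 - 1 / r) := mul_lt_mul_of_pos_left hx (by linarith)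
    have h6 : r * (1 - 1 / r) = r - 1 := by field_simp
    rw [h6] at h4
    have h7 : r * ((d : ℝ) - r * m) = r * d - 35 * m := by
      linear_combination (-(m : ℝ)) * hr2
    rw [h7] at h4
    push_cast
    linarith

end Pool.Agent.L7h43.QU
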