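import Pool.Agent.L7h21.QU.Five
import Pool.Agent.L7h43.QU.Num35

/-! Five sectors, independence, all degrees but those `1` modulo `5` (after helper21's `Five.lean`). -/

set_option autoImplicit false

namespace Pool.Agent.L7h43.QU

open Pool.Agent.TH176.Nag Pool.Agent.TH603.Sur Pool.Agent.TH469.SX Pool.Agent.L7h21.QU

variable {a b c K : ℝ} {d : ℕ}

theorem five_ne' (hd : d % 5 ≠ 1) (y : ℤ) : ((d : ℝ) - 1) / 5 - y ≠ 0 := by
  intro h
  have h1 : (d : ℝ) = 5 * y + 1 := by linarith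
  have h2 : (d : ℤ) = 5 * y + 1 := by exact_mod_cast h1
  omega

theorem secS' {ι κ : Type} [Fintype ι] [Fintype κ] {w : ι → ℕ} {v : κ → ℕ} (h1 : a < b) (h2 : b < c)
    (hb : Irrational b) (hd : d % 5 ≠ 1)
    (hw : Sur w (Sec a b d)) (hv : Sur v (Sec b c d)) : Sur (Sum.elim w v) (Sec a c d) := by
  have key := cut_S (w := w) (v := v) (S := Sec a b d) (T := Sec b c d) (-b) ?_ hw hv
  · refine key.mono ?_
    rintro p (hp | hp)
    · have h0 := Sec_pos h1 hp
      obtain ⟨g1, g2, g3⟩ := hp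
      refine ⟨g1, g2, g3.trans ?_⟩
      exact mul_le_mul_of_nonneg_right h2.le h0
    · have h0 := Sec_pos h2 hp
      obtain ⟨g1, g2, g3⟩ := hp
      refine ⟨g1, le_trans ?_ g2, g3⟩
      exact mul_le_mul_of_nonneg_right h1.le h0
  · rintro p ⟨g1, g2, g3⟩ p' ⟨g1', g2', g3'⟩
    have hne : b * (((d : ℝ) - 1) / 5 - p'.2) ≠ p'.1 := by
      intro h
      apply hb
      refine ⟨(p'.1 : ℚ) / (((d : ℚ) - 1) / 5 - p'.2), ?_⟩
      push_cast
      rw [← h]
      exact mul_div_cancel_right₀ _ (five_ne' hd p'.2)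
    have h4 := lt_of_le_of_ne g2' hne
    linarith

theorem Sec_sub (hK5 : 5 < K) (hK6 : K < 6) (hd : d % 5 ≠ 1) :
    Sec (K - 15) (K + 10) d ⊆ E5 ((15 - K) / 25) d := by
  rintro ⟨i, y⟩ hp
  have h0 := Sec_pos (by linarith) hp
  obtain ⟨h1, h3, h4⟩ := hp
  simp only at h0 h1 h3 h4
  obtain ⟨j, rfl⟩ := Int.eq_ofNat_of_zero_le h1
  have h5 : (5 : ℝ) * j + 1 ≤ d := by
    push_cast at h0
    linarith
  have h6 : 5 * j + 1 ≤ d := by exact_mod_cast h5
  have h7 : 25 * (((d : ℝ) - 1) / 5 - ((j : ℤ) : ℝ)) ≤ (hh (d - 5 * j) : ℝ) := by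
    obtain ⟨e, he⟩ : ∃ e, e = d - 5 * j := ⟨_, rfl⟩
    have hde : (d : ℝ) = 5 * j + e := by
      have : d = 5 * j + e := by omega
      exact_mod_cast this
    rw [← he, hh, if_neg (by omega), if_neg (by omega)]
    split_ifs with h2
    · rw [hde, h2]
      push_cast
      linarith
    · rw [Nat.cast_sub (by omega), hde]
      push_cast
      linarith
  have hτ0 : 0 ≤ (15 - K) / 25 := by linarith
  have hτ1 : 0 ≤ 1 - (15 - K) / 25 := by linarith
  have h8 := mul_le_mul_of_nonneg_left h7 hτ0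
  have h9 := mul_le_mul_of_nonneg_left h7 hτ1
  refine ⟨h1, ?_, ?_, ?_⟩
  · simp only
    omega
  · simp only
    rw [Int.toNat_natCast]
    linarith
  · simp only
    rw [Int.toNat_natCast]
    linarith

theorem s_FIVES : S_FIVES := by
  intro K d hK h5 h6 hd ι _ w h
  have q1 := mvS h 2
  have q2 := mvS h 1
  have q3 := mvS h 0
  have q4 := mvS h (-1)
  have q5 := mvS h (-2)
  push_cast at q1 q2 q3 q4 q5
  rw [show K - 5 - 5 * 2 = K - 15 by ring, show K - 5 * 2 = K - 10 by ring] at q1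
  rw [show K - 5 - 5 * 1 = K - 10 by ring, show K - 5 * 1 = K - 5 by ring] at q2
  rw [show K - 5 - 5 * 0 = K - 5 by ring, show K - 5 * 0 = K by ring] at q3
  rw [show K - 5 - 5 * -1 = K by ring, show K - 5 * -1 = K + 5 by ring] at q4
  rw [show K - 5 - 5 * -2 = K + 5 by ring, show K - 5 * -2 = K + 10 by ring] at q5
  have i1 : Irrational (K - 10) := by simpa using hK.sub_natCast 10
  have i2 : Irrational (K - 5) := by simpa using hK.sub_natCast 5
  have i3 : Irrational (K + 5) := by simpa using hK.add_natCast 5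
  have h7 := secS' (by linarith) (by linarith) i3 hd (secS' (by linarith) (by linarith) hK hd
    (secS' (by linarith) (by linarith) i2 hd (secS' (by linarith) (by linarith) i1 hd q1 q2) q3)
    q4) q5
  exact h7.mono (Sec_sub h5 h6 hd)

end Pool.Agent.L7h43.QU
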