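import Pool.Agent.L7h43.QU.Num35
import Pool.Agent.L7h43.QU.FiveS
import Pool.Agent.L7h43.QU.Alg
import Pool.Agent.L7h43.QU.Linb
import Pool.Agent.L7h79.QU.Fle
import Pool.Agent.L7h79.QU.Tube
import Pool.Agent.L7h73.QU.Edge
import Pool.Agent.L7h73.QU.Lead
import Pool.Agent.L7h73.QU.Min
import Pool.Agent.L7h73.QU.Refl
import Pool.Agent.L7h23.QU.Emp
import Pool.Agent.L7h23.QU.One
import Pool.Agent.L7h23.QU.Sur
import Pool.Agent.L7h47.QU.Asm
import Pool.Agent.L7h43.QU.Star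
import Pool.Agent.L7h6.QU.Inj
import Pool.Agent.L7h91.QU.Lina
import Pool.Agent.L7h96.QU.Dec
import Pool.Agent.L7h65.QU.Cev
import Pool.Agent.L7h21.QU.Five
import Pool.Agent.L7h64.NQ.Theta

/-! The parts put together: the tube around the rational quintic. -/

set_option autoImplicit false

namespace Pool.Agent.L7h43.QU

theorem lead : S_LEAD :=
  L7h73.QU.s_LEAD (Str.s_STAR L7h91.QU.s_LINA s_LINB s_ALG) L7h6.QU.s_INJ
    (L7h73.QU.s_EDGE L7h73.QU.s_REFL) L7h64.NQ.s_THETA L7h73.QU.s_MIN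

theorem asm : S_ASM := L7h47.QU.s_ASM L7h96.QU.s_DEC lead L7h65.QU.s_CEV

theorem emp : S_EMP := L7h23.QU.s_EMP L7h79.QU.s_TUBE L7h64.NQ.s_THETA asm

theorem sur : S_SUR := L7h23.QU.s_SUR emp

theorem parts : Parts where
  emp := emp
  sur := sur
  fle := L7h79.QU.s_FLE
  fls := L7h79.QU.s_FLS
  one := L7h23.QU.s_ONE
  five := L7h21.QU.s_FIVE

end Pool.Agent.L7h43.QU
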