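import Pool.Agent.L7h43.QU.Id
import Pool.Agent.L7h52.NQ.Stm

/-!
# Project QU: a rational quintic with a node. Uniform fat points: 29, 27 and 35 points

The analogue of project NQ (`L7h52/NQ/Stm.lean`) for the quintic `qv (D, A, B) = 0`, the image of
`z ↦ ((1-z)^3 (2-z)^2 : z (1-z)^3 : z (2-z)^2 (8-5z))`, with a node at `A = B = 0` (`z = 0, ∞`), a cusp of
type E6 (semigroup 3, 4) at `z = 1` and a cusp of type A4 (semigroup 2, 5) at `z = 2`. The tube around it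
degenerates the forms of degree `d` to the exponents `(i, j)` with `5 j ≤ d` and
`- τ h(d - 5 j) ≤ i ≤ (1 - τ) h(d - 5 j)`, `h(0) = 1`, `h(1) = 3`, `h(2) = 6`, `h(e) = 5 e - 5` (`e ≥ 3`).
All formulas were checked by computer. Most parts are adaptations of the corresponding part of NQ.
-/

namespace Pool.Agent.L7h43.QU

open MvPolynomial Pool.Agent.TH603.EL
open Pool.Agent.TH176.Nag (Emp)
open Pool.Agent.TH603.Sur (Sur TZ)
open Pool.Agent.TH469.SX (Fl)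
open Pool.Agent.TH864.SX (Slp)
open Pool.Agent.L7h52.NQ (vec mI th cst)

/-- the quintic form; its only monomial not divisible by `X 0` is `(X 1)^3 (X 2)^2` (coefficient 1) -/
noncomputable def Qf (R : Type) [CommRing R] : MvPolynomial (ZMod 3) R := qv (X 0) (X 1) (X 2)

/-- the parametrization of the quintic (in the variable `z = X`) -/
noncomputable def pt0 (F : Type) [Field F] : ZMod 3 → Polynomial F :=
  vec (dD Polynomial.X 0) (dA Polynomial.X 0) (dB Polynomial.X 0)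

/-- the other axis: the parametrization in `w = 1 / z`, times `-4` -/
noncomputable def pt1 (F : Type) [Field F] : ZMod 3 → Polynomial F :=
  vec (dD 0 Polynomial.X) (dA 0 Polynomial.X) (dB 0 Polynomial.X)

/-- the restriction of a form to the quintic -/
noncomputable def pull {F : Type} [Field F] (g : MvPolynomial (ZMod 3) F) : Polynomial F :=
  aeval (pt0 F) g

/-- the dimension of the forms of degree `e` on the quintic -/
def hh (e : ℕ) : ℕ := if e = 0 then 1 else if e = 1 then 3 else if e = 2 then 6 else 5 * e - 5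

/-- the bound for the sum of the orders at the two branches of the node -/
def bd (e : ℕ) : ℕ := if e = 0 then 0 else if e = 1 then 3 else if e = 2 then 6 else 5 * e - 5

/-- reduced forms: no monomial is divisible by `(X 1)^3 (X 2)^2` -/
def Rd {R : Type} [CommRing R] (g : MvPolynomial (ZMod 3) R) : Prop :=
  ∀ α ∈ g.support, α 1 < 3 ∨ α 2 < 2

/-- the first two equations for `G = z^k (h0 + h1 (z-1) + ... + h4 (z-1)^4)` -/
def Eq12 {F : Type} [Field F] (k e : F) (h : Fin 5 → F) : Prop :=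
  (3 * k + 8 * e) * h 0 + 3 * h 1 = 0 ∧
  (9 * k ^ 2 + 48 * k * e + 64 * e ^ 2 - 9 * k + 52 * e) * h 0 + (18 * k + 48 * e) * h 1 + 18 * h 2 = 0

/-- the third equation -/
def Eq3 {F : Type} [Field F] (k e : F) (h : Fin 5 → F) : Prop :=
  (243 * k ^ 5 + 3240 * k ^ 4 * e + 17280 * k ^ 3 * e ^ 2 + 46080 * k ^ 2 * e ^ 3 + 61440 * k * e ^ 4 +
      32768 * e ^ 5 - 5265 * k ^ 4 - 35640 * k ^ 3 * e - 60480 * k ^ 2 * e ^ 2 + 38400 * k * e ^ 3 +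
      122880 * e ^ 4 + 22815 * k ^ 3 - 8280 * k ^ 2 * e - 270960 * k * e ^ 2 - 231040 * e ^ 3 -
      35235 * k ^ 2 - 55680 * k * e - 382800 * e ^ 2 + 17442 * k - 131848 * e) * h 0 +
    (1215 * k ^ 4 + 12960 * k ^ 3 * e + 51840 * k ^ 2 * e ^ 2 + 92160 * k * e ^ 3 + 61440 * e ^ 4 -
      18630 * k ^ 3 - 87480 * k ^ 2 * e - 69120 * k * e ^ 2 + 84480 * e ^ 3 + 39285 * k ^ 2 -
      110520 * k * e - 314160 * e ^ 2 - 21870 * k - 96360 * e) * h 1 +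
    (4860 * k ^ 3 + 38880 * k ^ 2 * e + 103680 * k * e ^ 2 + 92160 * e ^ 3 - 48600 * k ^ 2 -
      136080 * k * e - 17280 * e ^ 2 + 27540 * k - 185040 * e) * h 2 +
    (14580 * k ^ 2 + 77760 * k * e + 103680 * e ^ 2 - 82620 * k - 97200 * e - 16200) * h 3 +
    (29160 * k + 77760 * e - 68040) * h 4 = 0

/-- the fourth and the fifth equation -/
def Eq45 {F : Type} [Field F] (k e : F) (h : Fin 5 → F) : Prop :=
  (k - 7 * e) * h 0 + (k - 7 * e + 2) * h 1 + (k - 7 * e + 4) * h 2 + (k - 7 * e + 6) * h 3 +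
      (k - 7 * e + 8) * h 4 = 0 ∧
  (k ^ 3 - 21 * k ^ 2 * e + 147 * k * e ^ 2 - 343 * e ^ 3 + 18 * k * e - 126 * e ^ 2 - k - 11 * e) * h 0 +
    (k ^ 3 - 21 * k ^ 2 * e + 147 * k * e ^ 2 - 343 * e ^ 3 + 6 * k ^ 2 - 66 * k * e + 168 * e ^ 2 +
      5 * k - 17 * e) * h 1 +
    (k ^ 3 - 21 * k ^ 2 * e + 147 * k * e ^ 2 - 343 * e ^ 3 + 12 * k ^ 2 - 150 * k * e + 462 * e ^ 2 +
      35 * k - 191 * e + 24) * h 2 +
    (k ^ 3 - 21 * k ^ 2 * e + 147 * k * e ^ 2 - 343 * e ^ 3 + 18 * k ^ 2 - 234 * k * e + 756 * e ^ 2 +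
      89 * k - 533 * e + 120) * h 3 +
    (k ^ 3 - 21 * k ^ 2 * e + 147 * k * e ^ 2 - 343 * e ^ 3 + 24 * k ^ 2 - 318 * k * e + 1050 * e ^ 2 +
      167 * k - 1043 * e + 336) * h 4 = 0

/-- **LINA** (150 lines). The conditions at the cusp `z = 1`. Write `D, A, B` for `pt0 0, pt0 1, pt0 2`:
`D = (1-z)^3 (2-z)^2`, `A = z (1-z)^3`, `B = z (2-z)^2 (8-5z)`, `B(1) = 3`, `B'(1) = -8`.
(a) `G = pull g` is `B^(e-1) (γ0 B + γ1 D + γ2 A) + (z-1)^6 M` (induct on monomials of degree `e ≥ 1`: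
`D`, `A` are divisible by `(z-1)^3`). (b) Hence `B G' - e B' G = B^(e-1) (γ1 (B D' - B' D) + γ2 (B A' - B' A))`
`+ (z-1)^5 M1`, and `B D' - B' D = (z-1)^2 d1`, `B A' - B' A = (z-1)^2 a1` (explicit polynomials). With
`G = z^k H`: `z (B G' - e B' G) = z^k T1`, `T1 = B (k H + z H') - e z B' H`. So `(z-1)^2` divides `T1`:
`T1(1) = 0`, `T1'(1) = 0` give Eq12 (up to combinations). (c) `T1 = (z-1)^2 T2`,
`z^k T2 = z B^(e-1) N + (z-1)^3 M2`, `N = γ1 d1 + γ2 a1`. So `T2(1) = B(1)^(e-1) N(1)`. Once more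
`z B (z^k T2)' - (B + (e-1) z B') z^k T2 = z^2 B^e N' + (z-1)^2 M3` and the left side is `z^k U1`,
`U1 = B (k T2 + z T2') - (B + (e-1) z B') T2`: `U1(1) = B(1)^e N'(1)`, and the derivative at `1`:
`k U1(1) + U1'(1) = 2 B^e N' + e B^(e-1) B' N' + B^e N''` at `1`. With `x1 = γ1 3^(e-1)`, `x2 = γ2 3^(e-1)` these
are three linear equations, eliminate `x1, x2`: Eq3, modulo Eq12. (Any other derivation is fine: the
equations say that the coefficients `f1, f2` of `(z-1), (z-1)^2` in `f = G (B / 3)^(-e)` vanish, and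
`-5 f3 - 21 f4 + 9 f5 = 0`.) -/
def S_LINA : Prop := ∀ (F : Type) [Field F] [CharZero F] (e k : ℕ) (g : MvPolynomial (ZMod 3) F)
  (h : Fin 5 → F), 1 ≤ e → g.IsHomogeneous e →
  pull g = Polynomial.X ^ k * ∑ j : Fin 5, Polynomial.C (h j) * (Polynomial.X - 1) ^ (j : ℕ) →
  Eq12 (k : F) e h ∧ Eq3 (k : F) e h

/-- **LINB** (120 lines). The conditions at the cusp `z = 2`: `A(2) = -2`,
`B - 4 D = (z-2)^4 (4z-1)`. (a) `G = A^(e-1) (c0 A + c1 D) + (z-2)^4 M`. (b) `A G' - e A' G =`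
`A^(e-1) c1 (A D' - A' D) + (z-2)^3 M1`, `A D' - A' D = (z-2) d2`. With `G = z^k H`:
`z^k T3 = z A^(e-1) c1 (z-2) d2 + (z-2)^3 M2`, `T3 = A (k H + z H') - e z A' H`; so `T3(2) = 0` (first
equation), `T3 = (z-2) T4`. (c) As in LINA: `U2 = A (k T4 + z T4') - (A + (e-1) z A') T4` satisfies
`U2(2) d2(2) = 2 A(2) d2'(2) T4(2)` (second equation, modulo the first). (The equations say that in
`f = G (A / A(2))^(-e)` the coefficient `f1` of `z - 2` vanishes and `f3 X2 = f2 X3`, `X = D / A`.) -/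
def S_LINB : Prop := ∀ (F : Type) [Field F] [CharZero F] (e k : ℕ) (g : MvPolynomial (ZMod 3) F)
  (h : Fin 5 → F), 1 ≤ e → g.IsHomogeneous e →
  pull g = Polynomial.X ^ k * ∑ j : Fin 5, Polynomial.C (h j) * (Polynomial.X - 1) ^ (j : ℕ) →
  Eq45 (k : F) e h

/-- **ALG** (helper43). The five equations have only the zero solution. -/
def S_ALG : Prop := ∀ (F : Type) [Field F] [CharZero F] (e k : ℕ) (h : Fin 5 → F),
  Eq12 (k : F) e h → Eq3 (k : F) e h → Eq45 (k : F) e h →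
  ((3 ≤ e ∧ k + 4 ≤ 5 * e) ∨ (e = 2 ∧ k + 3 ≤ 10 ∧ h 4 = 0) ∨
    (e = 1 ∧ k + 1 ≤ 5 ∧ h 2 = 0 ∧ h 3 = 0 ∧ h 4 = 0)) → ∀ j, h j = 0

/-- **STAR** (80 lines) from LINA, LINB, ALG. `deg (pull g) ≤ 5 e` since each `pt0 l` has degree `≤ 5`. If
`natTrailingDegree + (5 e - natDegree) > bd e`, then `natDegree - natTrailingDegree` is `≤ 4` (`e ≥ 3`),
`≤ 3` (`e = 2`), `≤ 1` (`e = 1`), so `pull g = X^k H` with `deg H ≤ 4 (3, 1)`, `k + 4 (3, 1) ≤ 5 e` (`k` the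
trailing degree, or smaller: choose `k` with this property and `X^k ∣ G`, `deg G ≤ k + 4`), and `H` has a
Taylor expansion `∑ h j (X - 1)^j` (`Polynomial.taylor`). By ALG `H = 0`. For `e = 0` `pull g` is a
constant. -/
def S_STAR : Prop := ∀ (F : Type) [Field F] [CharZero F] (e : ℕ) (g : MvPolynomial (ZMod 3) F),
  g.IsHomogeneous e → pull g ≠ 0 → (pull g).natDegree ≤ 5 * e ∧
    (pull g).natTrailingDegree + (5 * e - (pull g).natDegree) ≤ bd e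

/-- **INJ** (150 lines). A reduced form which vanishes on the quintic is zero. Write
`g = ∑ g_(a,b) D^(e-a-b) A^a B^b`; `G = ∑ g_(a,b) z^(a+b) (1-z)^(3(e-b)) (2-z)^(2(e-a)) (8-5z)^b`.
Use `z (8-5z) = 4 (1-z)^3 + (2-z)^2 (4z-1)`.
(a) All `g_(a,b)` with `a ≥ 3` (so `b ≤ 1`) vanish: let `I ≥ 3` be the largest `a` with some
`g_(I,b) ≠ 0`, `γ_a = ∑_b 4^b g_(a,b)`. `G / (2-z)^(2(e-I))` modulo `(2-z)^4` is
`z^I (1-z)^(3e) γ_I + (2-z)^2 (z^I (1-z)^(3e-3) (4z-1) g_(I,1) + z^(I-1) (1-z)^(3e) γ_(I-1) + (2-z)^2 ...)`; so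
`γ_I = 0` and `z (4z-1) g_(I,1) + (1-z)^3 γ_(I-1)` vanishes to order 2 at `z = 2`:
`14 g_(I,1) = γ_(I-1)`, `15 g_(I,1) = 3 γ_(I-1)`, hence `g_(I,1) = 0`, `g_(I,0) = γ_I - 4 g_(I,1) = 0`.
(b) Now `a ≤ 2`. Let `J` be the largest `b` with some `g_(a,J) ≠ 0`. `G / (1-z)^(3(e-J))` modulo
`(1-z)^3`: `∑_(a ≤ 2) g_(a,J) z^a (2-z)^(2(e-a))` is divisible by `(1-z)^3` (for `a ≤ e - J ≤ e`): with
`z = 1 + u`: `g0 + g1 + g2 = 0`, `-4 g0 - g1 + 2 g2 = 0`, `6 g0 - g1 + g2 = 0` after division by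
`(2-z)^(2(e-2))` (`e ≥ 2`), determinant `27`; for `e ≤ 1` directly. -/
def S_INJ : Prop := ∀ (F : Type) [Field F] [CharZero F] (e : ℕ) (g : MvPolynomial (ZMod 3) F),
  g.IsHomogeneous e → Rd g → g ≠ 0 → pull g ≠ 0

/-- **REFL** (40 lines), as in NQ (`L7h73/NQ/Refl.lean`): `pt1 l = -4 * reflect 5 (pt0 l)`. -/
def S_REFL : Prop := ∀ (F : Type) [Field F] [CharZero F] (e : ℕ) (g : MvPolynomial (ZMod 3) F),
  g.IsHomogeneous e →
    aeval (pt1 F) g = Polynomial.C ((-4 : F) ^ e) * Polynomial.reflect (5 * e) (pull g)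

/-- `w = X 1 * v` solves the equation of the tube up to order `n` -/
def Sol {F : Type} [Field F] (n : ℕ) (v : MvPolynomial (Fin 2) F) : Prop :=
  constantCoeff v ≠ 0 ∧
    (X 1 * v) * nN (X 0) (X 1 * v) - X 1 * uu (X 0) (X 1 * v) ^ 6 ∈ mI F ^ n

/-- **TUBE** (60 lines), as in NQ (`L7h36/NQ/Tube.lean`): `N(0,0) = 11664`, `uu(0,0)^6 = 64`; iterate
`w ↦ w - (w N(x,w) - y uu(x,w)^6) / 11664`, start with `v = C (4/729)`. -/
def S_TUBE : Prop := ∀ (F : Type) [Field F] [CharZero F] (n : ℕ), ∃ v : MvPolynomial (Fin 2) F, Sol n v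

/-- the coordinates of the tube in the variables `x, y` -/
noncomputable def pu {F : Type} [Field F] (v : MvPolynomial (Fin 2) F) :
    ZMod 3 → MvPolynomial (Fin 2) F :=
  vec (dD (X 0) (X 1 * v)) (dA (X 0) (X 1 * v)) (dB (X 0) (X 1 * v))

/-- the coordinates of the tube -/
noncomputable def tubeU {F : Type} [Field F] (τ s : ℝ) (v : MvPolynomial (Fin 2) F) : ZMod 3 → HR F :=
  fun l => th F τ s (map (cst F) (pu v l))

/-- **EDGE** (80 lines) from REFL, as in NQ (`L7h73/NQ/Edge.lean`), `-4` in place of `9`, `5 e` in place of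
`4 e`. -/
def S_EDGE : Prop := ∀ (F : Type) [Field F] [CharZero F] (e : ℕ) (g : MvPolynomial (ZMod 3) F)
  (v : MvPolynomial (Fin 2) F), g.IsHomogeneous e → pull g ≠ 0 → (pull g).natDegree ≤ 5 * e →
  (∀ p : ℕ, (aeval (pu v) g).coeff (Finsupp.single 0 p) = (pull g).coeff p) ∧
    (aeval (pu v) g).coeff (Finsupp.single 1 (5 * e - (pull g).natDegree)) =
      (-4) ^ e * (pull g).leadingCoeff * constantCoeff v ^ (5 * e - (pull g).natDegree)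

/-- **MIN** (80 lines), as in NQ (statement the same, new `pu`, `Rd`). -/
def S_MIN : Prop := ∀ (F : Type) [Field F] (e : ℕ) (g : MvPolynomial (ZMod 3) (HK F))
  (v : MvPolynomial (Fin 2) F), g.IsHomogeneous e → Rd g → g ≠ 0 →
  ∃ (a0 : ℝ) (g' : MvPolynomial (ZMod 3) F), g'.IsHomogeneous e ∧ Rd g' ∧ g' ≠ 0 ∧
    (∀ m a, ((aeval (fun l => map (cst F) (pu v l)) g).coeff m).coeff a ≠ 0 → a0 ≤ a) ∧
    ∀ m, ((aeval (fun l => map (cst F) (pu v l)) g).coeff m).coeff a0 = (aeval (pu v) g').coeff m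

/-- **LEAD** (150 lines) from STAR, INJ, EDGE, `L7h52.NQ.S_THETA`, MIN, as in NQ (`L7h73/NQ/Lead.lean`),
`5 e` in place of `4 e`. -/
def S_LEAD : Prop := ∀ (F : Type) [Field F] [CharZero F] (τ s : ℝ) (e : ℕ)
  (g : MvPolynomial (ZMod 3) (HK F)) (v : MvPolynomial (Fin 2) F), 0 < τ → τ < 1 → 5 * (e : ℝ) + 1 < s →
  constantCoeff v ≠ 0 → g.IsHomogeneous e → Rd g → g ≠ 0 →
  ∃ r : ℝ, Low (ev (tubeU τ s v) g) r ∧ (ev (tubeU τ s v) g).coeff r ≠ 0 ∧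
    ∀ i j : ℤ, cf (ev (tubeU τ s v) g) r i j ≠ 0 → j = 0 ∧ -(τ * hh e) ≤ i ∧ (i : ℝ) ≤ (1 - τ) * hh e

/-- **DEC** (100 lines), as in NQ (`L7h36/NQ/Dec.lean`): division by `Qf - κ (X 0)^5`: its only monomial
not divisible by `X 0` is `(X 1)^3 (X 2)^2`. -/
def S_DEC : Prop := ∀ (R : Type) [Field R] [CharZero R] (κ : R) (d : ℕ) (f : MvPolynomial (ZMod 3) R),
  f.IsHomogeneous d → ∃ f0 f1 : MvPolynomial (ZMod 3) R, f = f0 + (Qf R - C κ * X 0 ^ 5) * f1 ∧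
    f0.IsHomogeneous d ∧ Rd f0 ∧ f1.IsHomogeneous (d - 5) ∧ (d < 5 → f1 = 0)

/-- the quintic of the tube: the constant is `t` -/
noncomputable def Ct (F : Type) [Field F] : MvPolynomial (ZMod 3) (HK F) :=
  Qf (HK F) - C (HahnSeries.single 1 1) * X 0 ^ 5

/-- **CEV** (120 lines), as in NQ (`L7h65/NQ/Cev.lean`): with `D = dD(x,w)`, `N = nN(x,w)`,
`P = (1-x)(1-w)`, `u = uu(x,w)`, `w = y v`: `Qf` becomes `x w D^2 P^3 N` (`qv_tube`), `w N = y u^6 + E`,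
`D^3 = P^3 u^6` (`dD_cube`), so `Qf` becomes `x y D^5 + x D^2 P^3 E`, `x y = t + t^s Y`, and `Ct` becomes
`t^s Y D^5 + x D^2 P^3 E`; `D(0,0) = 4`, `4^5 = 1024`. -/
def S_CEV : Prop := ∀ (F : Type) [Field F] [CharZero F] (τ s : ℝ) (n : ℕ) (v : MvPolynomial (Fin 2) F),
  0 < τ → τ < 1 → 1 < s → s < n * min τ (1 - τ) → Sol n v →
  Low (ev (tubeU τ s v) (Ct F)) s ∧
    ∀ i j : ℤ, cf (ev (tubeU τ s v) (Ct F)) s i j = if i = 0 ∧ j = 1 then 1024 else 0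

/-- the exponents of the tube -/
def E5 (τ : ℝ) (d : ℕ) : Set (ℤ × ℤ) :=
  {p | 0 ≤ p.2 ∧ 5 * p.2 ≤ d ∧ -(τ * hh (d - 5 * p.2.toNat)) ≤ p.1 ∧
    (p.1 : ℝ) ≤ (1 - τ) * hh (d - 5 * p.2.toNat)}

/-- **ASM** (120 lines) from DEC, LEAD, CEV, as in NQ (`L7h47/NQ/Asm.lean`). -/
def S_ASM : Prop := ∀ (F : Type) [Field F] [CharZero F] (τ s : ℝ) (n d : ℕ) (v : MvPolynomial (Fin 2) F)
  (f : MvPolynomial (ZMod 3) (HK F)), 0 < τ → τ < 1 → 5 * (d : ℝ) + 1 < s → s < n * min τ (1 - τ) →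
  Sol n v → f.IsHomogeneous d → f ≠ 0 →
  ∃ a : ℝ, Low (ev (tubeU τ s v) f) a ∧ (ev (tubeU τ s v) f).coeff a ≠ 0 ∧
    ∀ i j : ℤ, cf (ev (tubeU τ s v) f) a i j ≠ 0 → ((i, j) : ℤ × ℤ) ∈ E5 τ d

/-- **EMP** (100 lines) from TUBE, `L7h52.NQ.S_THETA`, ASM, as in NQ (`L7h23/NQ/Emp.lean`): the coefficient
of `t^0` in `tubeU 0` is `4`, the coefficients of `t^τ` in `tubeU 1`, `tubeU 2` are `x`, `32 x`. -/
def S_EMP : Prop := ∀ (ι : Type) (w : ι → ℕ) (d : ℕ) (τ : ℝ), 0 < τ → τ < 1 / 2 →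
  Emp w (E5 τ d) → Emp w (TZ d)

/-- **SUR** (120 lines) from EMP, as in NQ (`L7h23/NQ/Sur.lean`):
`hh (e + 5) + choose (e+2) 2 = choose (e+7) 2`. -/
def S_SUR : Prop := ∀ (ι : Type) [Fintype ι] (w : ι → ℕ) (d : ℕ) (τ : ℝ), 0 < τ → τ < 1 / 2 →
  Irrational τ → Sur w (E5 τ d) → Sur w (TZ d)

/-- the block of width `M` and slope `K`: apex at the height `(d - 1) / 5` -/
def B5 (M : ℕ) (K : ℝ) (d : ℕ) : Set (ℤ × ℤ) :=
  {p | 0 ≤ p.2 ∧ (K - M) * (((d : ℝ) - 1) / 5 - p.2) ≤ p.1 ∧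
    (p.1 : ℝ) ≤ K * (((d : ℝ) - 1) / 5 - p.2)}

/-- one more point in the column `0` if `d ≡ 2` modulo `5` -/
def A5 (d : ℕ) : Set (ℤ × ℤ) := {p | p.1 = 0 ∧ 0 ≤ p.2 ∧ 5 * p.2 + 2 = d}

/-- **FLE** (80 lines). The first flattening, as in NQ (FLE), `(d - 1) / 5` in place of `(2 d - 1) / 8`; the
column `0` of the block is empty since `(d - 1) / 5` is no integer. -/
def S_FLE : Prop := ∀ (M q : ℕ) (K : ℝ) (d : ℕ) (ι : Type) (w : ι → ℕ), Slp M q K → d % 5 ≠ 1 →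
  (Emp w (Fl q K (K * ((d - 1) / 5))) → Emp w (B5 M K d)) ∧
  (Emp w (Fl q K (K * ((d - 1) / 5)) ∪ {((0, 0) : ℤ × ℤ)}) → Emp w (B5 M K d ∪ A5 d))

/-- **FLS** (60 lines). The same for the independence, as in NQ (FLS). -/
def S_FLS : Prop := ∀ (M q : ℕ) (K : ℝ) (d : ℕ) (ι : Type) [Fintype ι] (w : ι → ℕ), Slp M q K →
  Sur w (Fl q K (K * ((d - 1) / 5))) → Sur w (B5 M K d)

/-- **ONE** (100 lines). One sector, `τ = (35 - K) / 25`, `25 < K < 26`, coordinates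
`x = i + 2 (d - 1 - 5 j)`: if `d ≡ 3, 4` modulo `5`, then `E5 τ d` is `B5 25 K d`; if `d ≡ 2`, it is
contained in `B5 25 K d ∪ A5 d` (row `e = d - 5 j = 2`: `i ∈ [-6 τ, 6 (1 - τ)]`, `τ` between `0.36` and
`0.4`, so `i = -2, ..., 3`, `x = 0, ..., 5`); and `B5 25 K d` is contained in it for all `d` (row `e = 1`:
only `x = 0 = i`). As in NQ (`L7h23/NQ/One.lean`). -/
def S_ONE : Prop := ∀ (K : ℝ) (d : ℕ), Irrational K → 25 < K → K < 26 →
  (d % 5 = 3 ∨ d % 5 = 4 → ∀ (ι : Type) (w : ι → ℕ), Emp w (B5 25 K d) → Emp w (E5 ((35 - K) / 25) d)) ∧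
  (d % 5 = 2 → ∀ (ι : Type) (w : ι → ℕ), Emp w (B5 25 K d ∪ A5 d) → Emp w (E5 ((35 - K) / 25) d)) ∧
  ∀ (ι : Type) [Fintype ι] (w : ι → ℕ), Sur w (B5 25 K d) → Sur w (E5 ((35 - K) / 25) d)

/-- five copies of the weights -/
def five {ι : Type} (w : ι → ℕ) : ((((ι ⊕ ι) ⊕ ι) ⊕ ι) ⊕ ι) → ℕ :=
  Sum.elim (Sum.elim (Sum.elim (Sum.elim w w) w) w) w

/-- **FIVE** (200 lines). Five sectors, `τ = (15 - K) / 25`, `5 < K < 6`, `d ≡ 3, 4` modulo `5`: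
`E5 τ d` is the union of the sectors `s = -2, ..., 2`:
`(K - 5 - 5 s) (η - j) ≤ i ≤ (K - 5 s) (η - j)`, `η = (d-1)/5`; in the coordinates
`x = i + s (d - 1 - 5 j)` each is `B5 5 K d`. Separate them with `TH469.SX.cut_E`, `TH469.SX.cut_S` (lines
`i + (K - 5 - 5 s) j = (K - 5 - 5 s) η`, irrational slopes), see `L7h4/NQ/Sec.lean` (two sectors) and
`TH469/SX/Sect.lean` (three sectors). -/
def S_FIVE : Prop := ∀ (K : ℝ) (d : ℕ), Irrational K → 5 < K → K < 6 → d % 5 = 3 ∨ d % 5 = 4 →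
  (∀ (ι : Type) [Finite ι] (w : ι → ℕ), Emp w (B5 5 K d) → Emp (five w) (E5 ((15 - K) / 25) d)) ∧
  ∀ (ι : Type) [Fintype ι] (w : ι → ℕ), Sur w (B5 5 K d) → Sur (five w) (E5 ((15 - K) / 25) d)

end Pool.Agent.L7h43.QU
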