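import Mathlib

/-! The rational quintic with a node, a cusp of type E6 and a cusp of type A4: the identity of the tube. -/

namespace Pool.Agent.L7h43.QU

section
variable {R : Type*} [CommRing R]

/-- the quintic form, as a function -/
def qv (D A B : R) : R :=
  -D ^ 3 * (B ^ 2 - 37 * A * B + 160 * A ^ 2) + D ^ 2 * A * (3 * B ^ 2 + 52 * A * B + 16 * A ^ 2) -
    D * A ^ 2 * B * (3 * B + 8 * A) + A ^ 3 * B ^ 2

/-- the coordinates of the tube near the node -/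
def dD (x w : R) : R := ((1 - x) * (1 - w)) ^ 3 * ((2 - x) * (1 - 2 * w)) ^ 2
/-- see `dD` -/
def dA (x w : R) : R := ((1 - x) * (1 - w)) ^ 3 * (x * (1 - 2 * w) ^ 2 + w * (2 - x) ^ 2)
/-- see `dD` -/
def dB (x w : R) : R := ((2 - x) * (1 - 2 * w)) ^ 2 *
  (x * (8 - 5 * x) * (1 - w) ^ 3 + w * (5 - 8 * w) * (1 - x) ^ 3)
/-- the product of the linear factors -/
def uu (x w : R) : R := (1 - x) * (1 - w) * ((2 - x) * (1 - 2 * w))
/-- the unit in the equation of the quintic near the node -/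
def nN (x w : R) : R :=
    (11664 - 105408 * w + 322704 * w ^ 2 - 82080 * w ^ 3 - 2037312 * w ^ 4 + 6127488 * w ^
        5 - 8895744 * w ^ 6 + 7285248 * w ^ 7 - 3234816 * w ^ 8 + 608256 * w ^ 9) +
    x * (-43632 + 187268 * w + 1273036 * w ^ 2 - 12634400 * w ^ 3 + 46156800 * w ^ 4 -
        94817408 * w ^ 5 + 119858880 * w ^ 6 - 93772544 * w ^ 7 + 42852352 * w ^ 8 - 9668608
        * w ^ 9 + 608256 * w ^ 10) +
    x ^ 2 * (42768 + 753301 * w - 12504640 * w ^ 2 + 71303764 * w ^ 3 - 221186848 * w ^ 4 +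
        421945200 * w ^ 5 - 514216384 * w ^ 6 + 396618688 * w ^ 7 - 182373376 * w ^ 8 +
        42852352 * w ^ 9 - 3234816 * w ^ 10) +
    x ^ 3 * (50004 - 3192353 * w + 34369615 * w ^ 2 - 173302912 * w ^ 3 + 508476696 * w ^ 4 -
        941787200 * w ^ 5 + 1129248816 * w ^ 6 - 863994112 * w ^ 7 + 396618688 * w ^ 8 -
        93772544 * w ^ 9 + 7285248 * w ^ 10) +
    x ^ 4 * (-165969 + 5268927 * w - 50051095 * w ^ 2 + 239963748 * w ^ 3 - 686130852 * w ^ 4 +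
        1252022240 * w ^ 5 - 1486902432 * w ^ 6 + 1129248816 * w ^ 7 - 514216384 * w ^ 8 +
        119858880 * w ^ 9 - 8895744 * w ^ 10) +
    x ^ 5 * (186138 - 4938299 * w + 44486649 * w ^ 2 - 208210634 * w ^ 3 + 587450030 * w ^ 4 -
        1062464384 * w ^ 5 + 1252022240 * w ^ 6 - 941787200 * w ^ 7 + 421945200 * w ^ 8 -
        94817408 * w ^ 9 + 6127488 * w ^ 10) +
    x ^ 6 * (-114939 + 2860347 * w - 25208347 * w ^ 2 + 116716200 * w ^ 3 - 326981640 * w ^ 4 +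
        587450030 * w ^ 5 - 686130852 * w ^ 6 + 508476696 * w ^ 7 - 221186848 * w ^ 8 +
        46156800 * w ^ 9 - 2037312 * w ^ 10) +
    x ^ 7 * (41526 - 1028651 * w + 9049423 * w ^ 2 - 41816038 * w ^ 3 + 116716200 * w ^ 4 -
        208210634 * w ^ 5 + 239963748 * w ^ 6 - 173302912 * w ^ 7 + 71303764 * w ^ 8 -
        12634400 * w ^ 9 - 82080 * w ^ 10) +
    x ^ 8 * (-8262 + 216982 * w - 1946056 * w ^ 2 + 9049423 * w ^ 3 - 25208347 * w ^ 4 + 44486649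
        * w ^ 5 - 50051095 * w ^ 6 + 34369615 * w ^ 7 - 12504640 * w ^ 8 + 1273036 * w ^ 9 +
        322704 * w ^ 10) +
    x ^ 9 * (702 - 22816 * w + 216982 * w ^ 2 - 1028651 * w ^ 3 + 2860347 * w ^ 4 - 4938299 * w ^
        5 + 5268927 * w ^ 6 - 3192353 * w ^ 7 + 753301 * w ^ 8 + 187268 * w ^ 9 - 105408 * w
        ^ 10) +
    x ^ 10 * (702 * w - 8262 * w ^ 2 + 41526 * w ^ 3 - 114939 * w ^ 4 + 186138 * w ^ 5 - 165969 * w
        ^ 6 + 50004 * w ^ 7 + 42768 * w ^ 8 - 43632 * w ^ 9 + 11664 * w ^ 10)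

theorem nN_eq (x w : R) :
    (x * (8 - 5 * x) * (1 - w) ^ 3 + w * (5 - 8 * w) * (1 - x) ^ 3) ^ 2 *
        ((x * (1 - 2 * w) ^ 2 + w * (2 - x) ^ 2) - ((2 - x) * (1 - 2 * w)) ^ 2) ^ 3 +
      ((1 - x) * (1 - w)) ^ 3 * (x * (1 - 2 * w) ^ 2 + w * (2 - x) ^ 2) *
        (x * (8 - 5 * x) * (1 - w) ^ 3 + w * (5 - 8 * w) * (1 - x) ^ 3) *
        (37 * ((2 - x) * (1 - 2 * w)) ^ 4 +
          52 * (x * (1 - 2 * w) ^ 2 + w * (2 - x) ^ 2) * ((2 - x) * (1 - 2 * w)) ^ 2 -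
          8 * (x * (1 - 2 * w) ^ 2 + w * (2 - x) ^ 2) ^ 2) +
      16 * ((1 - x) * (1 - w)) ^ 6 * (x * (1 - 2 * w) ^ 2 + w * (2 - x) ^ 2) ^ 2 *
        ((x * (1 - 2 * w) ^ 2 + w * (2 - x) ^ 2) - 10 * ((2 - x) * (1 - 2 * w)) ^ 2) =
      x * w * nN x w := by
  unfold nN
  ring

theorem qv_tube (x w : R) :
    qv (dD x w) (dA x w) (dB x w) =
      x * w * dD x w ^ 2 * ((1 - x) * (1 - w)) ^ 3 * nN x w := by
  have h := nN_eq x w
  unfold qv dD dA dB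
  obtain ⟨P, hP⟩ : ∃ P : R, P = (1 - x) * (1 - w) := ⟨_, rfl⟩
  obtain ⟨Q, hQ⟩ : ∃ Q : R, Q = (2 - x) * (1 - 2 * w) := ⟨_, rfl⟩
  obtain ⟨a, ha⟩ : ∃ a : R, a = x * (1 - 2 * w) ^ 2 + w * (2 - x) ^ 2 := ⟨_, rfl⟩
  obtain ⟨b, hb⟩ : ∃ b : R, b = x * (8 - 5 * x) * (1 - w) ^ 3 + w * (5 - 8 * w) * (1 - x) ^ 3 :=
    ⟨_, rfl⟩
  rw [← hP, ← hQ, ← ha, ← hb] at h
  rw [← hP, ← hQ, ← ha, ← hb]
  linear_combination (P ^ 9 * Q ^ 4) * h

theorem dD_cube (x w : R) : dD x w ^ 3 = ((1 - x) * (1 - w)) ^ 3 * uu x w ^ 6 := by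
  unfold dD uu
  ring

end

end Pool.Agent.L7h43.QU
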