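import Pool.Agent.L7h43.QU.Par
import Pool.Agent.L7h52.NQ.Stm3
import Pool.Agent.TH469.SX.Blk

/-! The block with some multiplicities lowered by one. -/

set_option autoImplicit false

namespace Pool.Agent.L7h43.QU

open Finset Pool.Agent.TH176.Nag Pool.Agent.TH603.Sur Pool.Agent.TH603.Cut Pool.Agent.TH469.SX
open Pool.Agent.TH864.SX (Slp)

/-- the length of a row, with `u` units less -/
theorem row_low {p q M m k u : ℕ} {K A : ℝ} (hpq : p * q = 2) (hK0 : 0 < K)
    (hK : q * (K * (K - M)) = M)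
    (hA : (K + p) * (q * (A - m * (K + p))) < (K + p) - u * (q * (K + p) - 1)) {B : Finset ℤ}
    (hmem : ∀ c ∈ B, (1 ≤ c ∧ (c : ℝ) ≤ A - (K + p) * k) ∨
      (c ≤ 0 ∧ (-c : ℝ) * (q * (K + p) - 1) ≤ A - (K + p) * k - (K + p))) :
    B.card = 0 ∨ (k < m ∧ B.card + u ≤ (M + 2 * p) * (m - k)) := by
  have hp : 1 ≤ p := Nat.pos_of_ne_zero (by rintro rfl; simp at hpq)
  have hq : 1 ≤ q := Nat.pos_of_ne_zero (by rintro rfl; simp at hpq)
  have hpR : (1 : ℝ) ≤ p := by exact_mod_cast hp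
  have hqR : (1 : ℝ) ≤ q := by exact_mod_cast hq
  have hid := key_id hpq hK
  obtain ⟨D, hD⟩ : ∃ D : ℝ, D = q * (K + p) - 1 := ⟨_, rfl⟩
  have hD0 : 0 < D := by rw [hD]; nlinarith
  rw [← hD] at hid hmem hA
  have hKp : 0 < K + p := by linarith
  obtain ⟨y, hy⟩ : ∃ y : ℝ, y = A - (K + p) * k := ⟨_, rfl⟩
  rw [← hy] at hmem
  rcases B.eq_empty_or_nonempty with he | hne
  · left; rw [he]; simp
  right
  obtain ⟨Y, hY⟩ : ∃ Y : ℤ, Y = ⌊y⌋ := ⟨_, rfl⟩
  obtain ⟨U, hU⟩ : ∃ U : ℤ, U = ⌊(y - (K + p)) / D⌋ := ⟨_, rfl⟩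
  have hy1 : 1 ≤ y := by
    obtain ⟨c, hc⟩ := hne
    rcases hmem c hc with ⟨h1, h2⟩ | ⟨h1, h2⟩
    · have : (1 : ℝ) ≤ c := by exact_mod_cast h1
      linarith
    · have h1R : (c : ℝ) ≤ 0 := by exact_mod_cast h1
      have : 0 ≤ (-c : ℝ) * D := mul_nonneg (by linarith) hD0.le
      linarith
  have hYR : (0 : ℤ) ≤ Y := by rw [hY]; exact Int.floor_nonneg.2 (by linarith)
  have hUR : (-1 : ℤ) ≤ U := by
    rw [hU]
    apply Int.le_floor.2
    rw [le_div_iff₀ hD0]
    push_cast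
    have h1 : (K + p) * 1 ≤ (K + p) * q := mul_le_mul_of_nonneg_left hqR hKp.le
    rw [hD]
    linarith
  have hYU : B ⊆ Finset.Icc (-U) Y := by
    intro c hc
    rw [Finset.mem_Icc]
    rcases hmem c hc with ⟨h1, h2⟩ | ⟨h1, h2⟩
    · refine ⟨by omega, ?_⟩
      rw [hY]; exact Int.le_floor.2 h2
    · refine ⟨?_, by omega⟩
      have : -c ≤ U := by
        rw [hU]
        apply Int.le_floor.2
        rw [le_div_iff₀ hD0]
        push_cast
        exact h2
      omega
  have hcB : (B.card : ℤ) ≤ Y + U + 1 := by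
    have h1 := card_le_card hYU
    rw [Int.card_Icc] at h1
    omega
  -- the height of the row
  have hyA : y = (K + p) * ((m : ℝ) - k) + (A - m * (K + p)) := by rw [hy]; ring
  have hkm : k < m := by
    by_contra hcon
    have h1 : (m : ℝ) ≤ k := by exact_mod_cast not_lt.1 hcon
    have h2 : (K + p) * ((m : ℝ) - k) ≤ 0 :=
      mul_nonpos_of_nonneg_of_nonpos hKp.le (by linarith)
    have h3 : 1 ≤ A - m * (K + p) := by linarith
    have h4 : (K + p) * 1 ≤ (K + p) * (q * (A - m * (K + p))) := by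
      apply mul_le_mul_of_nonneg_left _ hKp.le
      nlinarith
    have h5 : 0 ≤ (u : ℝ) * D := mul_nonneg (Nat.cast_nonneg u) hD0.le
    linarith
  refine ⟨hkm, ?_⟩
  have hsum : ((Y + U + 1 : ℤ) : ℝ) < (M + 2 * p) * ((m : ℝ) - k) + 1 - u := by
    have h1 := Int.floor_le y
    have h2 := Int.floor_le ((y - (K + p)) / D)
    rw [← hY] at h1
    rw [← hU] at h2
    rw [le_div_iff₀ hD0] at h2
    push_cast
    have h3 : ((Y : ℝ) + U + 1) * D < ((M + 2 * p) * ((m : ℝ) - k) + 1 - u) * D := by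
      have h4 : (Y : ℝ) * D ≤ y * D := mul_le_mul_of_nonneg_right h1 hD0.le
      have h5 : ((Y : ℝ) + U + 1) * D ≤ y * D + (y - (K + p)) + D := by linarith
      have h6 : y * D + (y - (K + p)) + D =
          q * (K + p) ^ 2 * ((m : ℝ) - k) + (K + p) * (q * (A - m * (K + p))) - (K + p) + D := by
        rw [hyA, hD]; ring
      rw [hid] at h6
      have h7 : ((M + 2 * p) * ((m : ℝ) - k) + 1 - u) * D =
          (M + 2 * p) * D * ((m : ℝ) - k) + D - u * D := by ring
      linarith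
    exact lt_of_mul_lt_mul_right h3 hD0.le
  have hsumZ : Y + U + 1 < (M + 2 * p) * ((m : ℤ) - k) + 1 - u := by
    have : ((Y + U + 1 : ℤ) : ℝ) < (((M + 2 * p) * ((m : ℤ) - k) + 1 - u : ℤ) : ℝ) := by
      push_cast at hsum ⊢
      exact hsum
    exact Int.cast_lt.1 this
  have h8 : (((M + 2 * p) * (m - k) : ℕ) : ℤ) = (M + 2 * p) * ((m : ℤ) - k) := by
    rw [Nat.cast_mul, Nat.cast_sub hkm.le]
    push_cast
    ring
  have h9 : ((B.card + u : ℕ) : ℤ) ≤ (((M + 2 * p) * (m - k) : ℕ) : ℤ) := by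
    rw [h8]
    push_cast
    linarith
  exact_mod_cast h9

/-- the sum of the lowered weights -/
theorem sum_low {ι : Type} [Fintype ι] [DecidableEq ι] {n : ℕ} (hn : Fintype.card ι = n) (i0 : ι)
    {m k : ℕ} (hk : k < m) :
    ∑ i, (Function.update (fun _ : ι => m) i0 (m - 1) i - k) + 1 = n * (m - k) := by
  have h1 : ∀ i, Function.update (fun _ : ι => m) i0 (m - 1) i - k =
      Function.update (fun _ : ι => m - k) i0 (m - 1 - k) i := by
    intro i
    by_cases h : i = i0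
    · subst h; simp
    · rw [Function.update_of_ne h, Function.update_of_ne h]
  simp only [h1]
  rw [Finset.sum_update_of_mem (Finset.mem_univ i0)]
  have h2 : n * (m - k) = (m - k) + ∑ _x ∈ Finset.univ \ {i0}, (m - k) := by
    rw [← hn, ← Finset.card_univ, ← smul_eq_mul, ← Finset.sum_const,
      ← Finset.add_sum_erase _ _ (Finset.mem_univ i0), Finset.sdiff_singleton_eq_erase]
  rw [h2]
  omega

/-- **the block with one multiplicity lowered** -/
theorem Emp_low {ι : Type} [Fintype ι] [DecidableEq ι] {p q M m : ℕ} {K A : ℝ} (hpq : p * q = 2)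
    (hK0 : 0 < K) (hK : q * (K * (K - M)) = M) (hcard : Fintype.card ι = M + 2 * p) (i0 : ι)
    (hA : (K + p) * (q * (A - m * (K + p))) < (K + p) - (q * (K + p) - 1)) :
    Emp (Function.update (fun _ : ι => m) i0 (m - 1)) (Fl q K A) := by
  refine Emp_slabs 1 (-(p : ℤ)) 1 0 (by ring) fun k B hB => ?_
  have hrow := row_low (u := 1) (B := B) (k := k) (m := m) hpq hK0 hK (by push_cast; linarith) (by
    intro c hc
    obtain ⟨s, T, hT, h1, h2⟩ := hB c hc
    simp only [one_mul, zero_mul, neg_mul, sub_neg_eq_add, zero_add] at h1 h2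
    exact mem_row hpq hK0 hT h1 h2)
  rcases hrow with h | ⟨h1, h2⟩
  · rw [h]; exact Nat.zero_le _
  · have := sum_low hcard i0 h1
    omega

end Pool.Agent.L7h43.QU
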