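import Pool.Agent.L7h43.QU.Stm
import Pool.Agent.L7h52.NQ.Stm3
import Pool.Agent.TH603.EL.Fin
import Pool.Agent.TH469.SX.Cut
import Pool.Agent.L7h52.NQ.Nag

/-! Nagata's inequality with a gain of one degree, at 25 or more points. -/

set_option autoImplicit false

namespace Pool.Agent.L7h43.QU

open Finset Pool.Agent.TH176.Nag Pool.Agent.TH603.Sur Pool.Agent.TH603.EL
open Pool.Agent.TH181.Nag (PS)

/-- the shape of the tube, every number of points `≥ 25` -/
theorem PS_shape5 {ι : Type} [Fintype ι] (hn : 25 ≤ Fintype.card ι) (k : ℤ) {τ : ℝ}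
    (hτ : 5 * √(Fintype.card ι) = k + 25 * τ) :
    PS (√(Fintype.card ι)) ι (25 * τ) (25 * (1 - τ)) := by
  have hn' : (25 : ℝ) ≤ Fintype.card ι := by exact_mod_cast hn
  obtain ⟨r, hr⟩ : ∃ r, r = √(Fintype.card ι : ℝ) := ⟨_, rfl⟩
  have hr2 : r ^ 2 = Fintype.card ι := by rw [hr]; exact Real.sq_sqrt (by positivity)
  have hr3 : 5 ≤ r := by rw [hr]; exact Real.le_sqrt_of_sq_le (by linarith)
  rw [← hr] at hτ ⊢
  refine PS.shear (k - 25) ?_
  have e1 : 25 * τ + ((k - 25 : ℤ) : ℝ) = 5 * r - 25 := by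
    push_cast
    rw [hτ]
    ring
  have e2 : 25 * (1 - τ) - ((k - 25 : ℤ) : ℝ) = 50 - 5 * r := by
    push_cast
    rw [hτ]
    ring
  rw [e1, e2]
  refine PS.stepA 1 25 isCoprime_one_left (by norm_num) ?_ ?_ ?_ ?_
  · push_cast; linarith
  · push_cast; linarith
  · linarith
  have e3 : ((1 : ℤ) : ℝ) * (((1 : ℤ) : ℝ) * (5 * r - 25) + ((25 : ℤ) : ℝ)) = 5 * r := by
    push_cast; ring
  have e4 : (((25 : ℤ) : ℝ) - ((1 : ℤ) : ℝ) * (50 - 5 * r)) *
      (((1 : ℤ) : ℝ) * (5 * r - 25) + ((25 : ℤ) : ℝ)) / (5 * r - 25 + (50 - 5 * r)) =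
      r ^ 2 - 5 * r := by
    push_cast
    rw [show (5 * r - 25 + (50 - 5 * r) : ℝ) = 25 by ring, div_eq_iff (by norm_num)]
    ring
  rw [e3, e4, hr]
  refine PS.final ?_ ?_ ?_
  · rw [← hr]; linarith
  · rw [← hr]; nlinarith
  · rw [← hr, hr2]; ring

theorem hh_ge3 {e : ℕ} (he : 3 ≤ e) : ((hh e : ℕ) : ℝ) = 5 * e - 5 := by
  have hh1 : hh e = 5 * e - 5 := by
    unfold hh; rw [if_neg (by omega), if_neg (by omega), if_neg (by omega)]
  rw [hh1, Nat.cast_sub (by omega)]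
  push_cast
  ring

/-- the triangle of the tube, of height `E / 5` -/
def Tri (τ E : ℝ) : Set (ℤ × ℤ) := Reg (-(5 * τ * E)) (5 * (1 - τ) * E) (25 * τ) (25 * (1 - τ))

theorem Tri_finite (τ E : ℝ) : (Tri τ E).Finite := by
  unfold Tri
  exact Pool.Agent.TH469.SX.Reg_finite (by linarith)

/-- emptiness of the triangle -/
theorem Emp_Tri {ι : Type} [Fintype ι] (hn : 25 ≤ Fintype.card ι) {w : ι → ℕ} {k : ℤ} {τ E : ℝ}
    (hτ : 5 * √(Fintype.card ι) = k + 25 * τ) (hE0 : 0 ≤ E)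
    (hE : √(Fintype.card ι) * E < ∑ i, (w i : ℝ)) : Emp w (Tri τ E) := by
  have hn' : (25 : ℝ) ≤ Fintype.card ι := by exact_mod_cast hn
  have hC : 0 < √(Fintype.card ι : ℝ) := Real.sqrt_pos.2 (by linarith)
  have h3 := FinAux.PS_apply hC (PS_shape5 hn k hτ) w hE0 hE (-(5 * τ * E))
  have e0 : 25 * τ + 25 * (1 - τ) = 5 ^ 2 := by ring
  rw [e0, Real.sqrt_sq (by norm_num)] at h3
  have e1 : -(5 * τ * E) + E * 5 = 5 * (1 - τ) * E := by ring
  rw [e1] at h3
  exact h3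

/-- the exponents of the tube, for `e = 2`, in the triangle or not -/
theorem E5_sub {τ E : ℝ} (h0 : 1 / 3 < τ) (h1 : τ < 1 / 2) {d : ℕ} (hE : (d : ℝ) - 1 ≤ E)
    {i j : ℤ} (h : ((i, j) : ℤ × ℤ) ∈ E5 τ d) : ((i, j) : ℤ × ℤ) ∈ Tri τ E ∨
      (5 * j = d ∧ i = 0) ∨ (5 * j + 1 = d ∧ (i = -1 ∨ i = 1)) ∨
      (5 * j + 2 = d ∧ (i = -2 ∧ E < d - 2 + 2 / (5 * τ) ∨ i = 3 ∧ E < d - 2 + 3 / (5 * (1 - τ)))) := by
  obtain ⟨g1, g2, g3, g4⟩ := h
  simp only at g1 g2 g3 g4
  obtain ⟨n, rfl⟩ := Int.eq_ofNat_of_zero_le g1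
  rw [Int.toNat_natCast] at g3 g4
  have hj : 5 * n ≤ d := by exact_mod_cast g2
  obtain ⟨e, he⟩ : ∃ e, e = d - 5 * n := ⟨_, rfl⟩
  rw [← he] at g3 g4
  have hde : (d : ℝ) = e + 5 * n := by
    have : d = e + 5 * n := by omega
    rw [this]; push_cast; ring
  by_cases he0 : e = 0
  · right; left
    subst he0
    have : hh 0 = 1 := rfl
    rw [this] at g3 g4
    push_cast at g3 g4
    have k1 : (-1 : ℝ) < i := by linarith
    have k2 : (i : ℝ) < 1 := by linarith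
    have k3 : (-1 : ℤ) < i := by exact_mod_cast k1
    have k4 : i < 1 := by exact_mod_cast k2
    exact ⟨by omega, by omega⟩
  by_cases he1 : e = 1
  · subst he1
    have : hh 1 = 3 := rfl
    rw [this] at g3 g4
    push_cast at g3 g4 hde
    have k1 : (-2 : ℝ) < i := by linarith
    have k2 : (i : ℝ) < 2 := by linarith
    have k3 : (-2 : ℤ) < i := by exact_mod_cast k1
    have k4 : i < 2 := by exact_mod_cast k2
    by_cases hi : i = 0
    · left
      subst hi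
      have h5 : 0 ≤ E - 5 * n := by linarith
      refine ⟨g1, ?_, ?_⟩
      · simp only; push_cast
        have := mul_nonneg (by linarith : (0 : ℝ) ≤ 5 * τ) h5
        linarith
      · simp only; push_cast
        have := mul_nonneg (by linarith : (0 : ℝ) ≤ 5 * (1 - τ)) h5
        linarith
    · right; right; left
      exact ⟨by omega, by omega⟩
  by_cases he2 : e = 2
  · subst he2
    have : hh 2 = 6 := rfl
    rw [this] at g3 g4
    push_cast at g3 g4 hde
    have k1 : (-3 : ℝ) < i := by linarith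
    have k2 : (i : ℝ) < 4 := by linarith
    have k3 : (-3 : ℤ) < i := by exact_mod_cast k1
    have k4 : i < 4 := by exact_mod_cast k2
    have h5 : 1 ≤ E - 5 * n := by linarith
    have h6 : 5 * τ * 1 ≤ 5 * τ * (E - 5 * n) := mul_le_mul_of_nonneg_left h5 (by linarith)
    have h7 : 5 * (1 - τ) * 1 ≤ 5 * (1 - τ) * (E - 5 * n) := mul_le_mul_of_nonneg_left h5 (by linarith)
    by_cases ha : i = -2 ∧ E < d - 2 + 2 / (5 * τ)
    · right; right; right
      exact ⟨by omega, Or.inl ha⟩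
    by_cases hb : i = 3 ∧ E < d - 2 + 3 / (5 * (1 - τ))
    · right; right; right
      exact ⟨by omega, Or.inr hb⟩
    left
    refine ⟨g1, ?_, ?_⟩
    · simp only; push_cast
      by_cases hi : i = -2
      · have h8 : (d : ℝ) - 2 + 2 / (5 * τ) ≤ E := by
          by_contra hcon
          exact ha ⟨hi, not_le.1 hcon⟩
        have h9 : 2 / (5 * τ) ≤ E - 5 * n := by linarith
        rw [div_le_iff₀ (by linarith)] at h9
        subst hi
        push_cast
        linarith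
      · have : (-1 : ℤ) ≤ i := by omega
        have : (-1 : ℝ) ≤ i := by exact_mod_cast this
        linarith
    · simp only; push_cast
      by_cases hi : i = 3
      · have h8 : (d : ℝ) - 2 + 3 / (5 * (1 - τ)) ≤ E := by
          by_contra hcon
          exact hb ⟨hi, not_le.1 hcon⟩
        have h9 : 3 / (5 * (1 - τ)) ≤ E - 5 * n := by linarith
        rw [div_le_iff₀ (by linarith)] at h9
        subst hi
        push_cast
        linarith
      · have : i ≤ 2 := by omega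
        have : (i : ℝ) ≤ 2 := by exact_mod_cast this
        linarith
  · left
    rw [hh_ge3 (by omega)] at g3 g4
    have h5 : 5 * (e : ℝ) - 5 ≤ 5 * (E - 5 * n) := by linarith
    have h6 := mul_le_mul_of_nonneg_left h5 (by linarith : (0 : ℝ) ≤ τ)
    have h7 := mul_le_mul_of_nonneg_left h5 (by linarith : (0 : ℝ) ≤ 1 - τ)
    refine ⟨g1, ?_, ?_⟩
    · simp only; push_cast; linarith
    · simp only; push_cast; linarith

/-- the slope: `τ` in a given interval of length `1 / 25` -/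
theorem exists_tau (N a : ℝ) : ∃ (k : ℤ) (τ : ℝ), 5 * √N = k + 25 * τ ∧ a ≤ τ ∧ τ < a + 1 / 25 := by
  refine ⟨⌊5 * √N - 25 * a⌋, (5 * √N - ⌊5 * √N - 25 * a⌋) / 25, by ring, ?_, ?_⟩
  · have := Int.floor_le (5 * √N - 25 * a)
    linarith
  · have := Int.lt_floor_add_one (5 * √N - 25 * a)
    linarith

/-- **Emptiness for arbitrary multiplicities at 25 or more points**, degrees `2, 3, 4` modulo `5` -/
theorem nag25 (hE : S_EMP) {ι : Type} [Fintype ι] (hn : 25 ≤ Fintype.card ι) {w : ι → ℕ} {d : ℕ}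
    (h : 3 ≤ d % 5 ∧ √(Fintype.card ι) * ((d : ℝ) - 1) < ∑ i, (w i : ℝ) ∨
      2 ≤ d % 5 ∧ √(Fintype.card ι) * ((d : ℝ) - 18 / 19) < ∑ i, (w i : ℝ)) : Emp w (TZ d) := by
  obtain ⟨k, τ, hk, hτ1, hτ2⟩ := exists_tau (Fintype.card ι : ℝ) (19 / 50)
  have hd1 : (1 : ℝ) ≤ d := by
    have : 1 ≤ d := by omega
    exact_mod_cast this
  have hn' : (25 : ℝ) ≤ Fintype.card ι := by exact_mod_cast hn
  have hC : 0 < √(Fintype.card ι : ℝ) := Real.sqrt_pos.2 (by linarith)
  refine hE ι w d τ (by linarith) (by linarith) ?_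
  obtain ⟨E, hE1, hE2, hE3⟩ : ∃ E : ℝ, (d : ℝ) - 1 ≤ E ∧ √(Fintype.card ι) * E < ∑ i, (w i : ℝ) ∧
      (d % 5 = 2 → (d : ℝ) - 18 / 19 ≤ E) := by
    by_cases h1 : d % 5 = 2
    · refine ⟨d - 18 / 19, by linarith, ?_, fun _ => le_rfl⟩
      rcases h with h | h
      · omega
      · exact h.2
    · refine ⟨d - 1, le_rfl, ?_, fun h => absurd h h1⟩
      rcases h with h | h
      · exact h.2
      · refine lt_of_le_of_lt ?_ h.2
        exact mul_le_mul_of_nonneg_left (by linarith) hC.le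
  refine (Emp_Tri hn hk (by linarith) hE2).mono ?_
  rintro ⟨i, j⟩ hp
  have hj0 : 0 ≤ j := hp.1
  rcases E5_sub (by linarith) (by linarith) hE1 hp with g | g | g | ⟨g1, g⟩
  · exact g
  · omega
  · omega
  · exfalso
    have h3 := hE3 (by omega)
    rcases g with ⟨-, g⟩ | ⟨-, g⟩
    · have : 2 / (5 * τ) ≤ 20 / 19 := by
        rw [div_le_div_iff₀ (by linarith) (by norm_num)]
        linarith
      linarith
    · have : 3 / (5 * (1 - τ)) ≤ 20 / 19 := by
        rw [div_le_div_iff₀ (by linarith) (by norm_num)]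
        linarith
      linarith

theorem sum_upd {ι : Type} [Fintype ι] [DecidableEq ι] {w : ι → ℕ} {i0 : ι} (hi0 : 1 ≤ w i0) :
    ∑ i, ((Function.update w i0 (w i0 - 1) i : ℕ) : ℝ) + 1 = ∑ i, (w i : ℝ) := by
  have e1 : ∑ i, Function.update w i0 (w i0 - 1) i + 1 = ∑ i, w i := by
    rw [Finset.sum_update_of_mem (Finset.mem_univ i0), ← Finset.add_sum_erase _ _ (Finset.mem_univ i0),
      Finset.sdiff_singleton_eq_erase]
    omega
  rw [← Nat.cast_sum, ← Nat.cast_sum, ← e1]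
  push_cast
  ring

/-- **Emptiness for arbitrary multiplicities at 25 or more points**, all degrees -/
theorem nag25z (hE : S_EMP) (hX : Pool.Agent.L7h52.NQ.S_ONEX) {ι : Type} [Fintype ι]
    (hn : 25 ≤ Fintype.card ι) {w : ι → ℕ} {d : ℕ}
    (h : d % 5 ≠ 1 ∧ (∃ i, 1 ≤ w i) ∧ √(Fintype.card ι) * ((d : ℝ) - 1) + 1 < ∑ i, (w i : ℝ) ∨
      (∃ i j, i ≠ j ∧ 1 ≤ w i ∧ 1 ≤ w j) ∧
        √(Fintype.card ι) * ((d : ℝ) - 1) + 2 < ∑ i, (w i : ℝ)) : Emp w (TZ d) := by
  classical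
  have hn' : (25 : ℝ) ≤ Fintype.card ι := by exact_mod_cast hn
  have hC : 0 < √(Fintype.card ι : ℝ) := Real.sqrt_pos.2 (by linarith)
  rcases Nat.eq_zero_or_pos d with rfl | hd
  · obtain ⟨i0, hi0⟩ : ∃ i, 1 ≤ w i := by
      rcases h with h | h
      · exact h.2.1
      · obtain ⟨i, j, -, h1, -⟩ := h.1
        exact ⟨i, h1⟩
    refine Emp_plane (by omega) ?_
    push_cast
    rw [mul_zero]
    have h1 : ((w i0 : ℕ) : ℝ) ≤ ∑ i, (w i : ℝ) :=
      Finset.single_le_sum (f := fun i => (w i : ℝ)) (fun i _ => Nat.cast_nonneg _) (Finset.mem_univ i0)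
    have h2 : (1 : ℝ) ≤ w i0 := by exact_mod_cast hi0
    linarith
  have hd1 : (1 : ℝ) ≤ d := by exact_mod_cast hd
  obtain ⟨k, τ, hk, hτ1, hτ2⟩ := exists_tau (Fintype.card ι : ℝ) (9 / 25)
  refine hE ι w d τ (by linarith) (by linarith) ?_
  have hsub : ∀ i j : ℤ, ((i, j) : ℤ × ℤ) ∈ E5 τ d → ((i, j) : ℤ × ℤ) ∈ Tri τ ((d : ℝ) - 1) ∨
      (5 * j = d ∧ i = 0) ∨ (5 * j + 1 = d ∧ (i = -1 ∨ i = 1)) ∨ (5 * j + 2 = d ∧ i = -2) := by
    intro i j hp
    rcases E5_sub (by linarith) (by linarith) le_rfl hp with g | g | g | ⟨g1, ⟨g, -⟩ | ⟨-, g⟩⟩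
    · exact Or.inl g
    · exact Or.inr (Or.inl g)
    · exact Or.inr (Or.inr (Or.inl g))
    · exact Or.inr (Or.inr (Or.inr ⟨g1, g⟩))
    · exfalso
      have : 3 / (5 * (1 - τ)) ≤ 1 := by
        rw [div_le_iff₀ (by linarith)]
        linarith
      linarith
  rcases h with ⟨hd5, ⟨i0, hi0⟩, h⟩ | ⟨⟨i0, j0, hij, hi0, hj0⟩, h⟩
  · have h3 : Emp (Function.update w i0 (w i0 - 1)) (Tri τ ((d : ℝ) - 1)) := by
      refine Emp_Tri hn hk (by linarith) ?_
      have := sum_upd hi0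
      linarith
    have h4 := hX ι w i0 _ (if d % 5 = 0 then (0, ((d / 5 : ℕ) : ℤ)) else (-2, ((d / 5 : ℕ) : ℤ)))
      (Tri_finite _ _) hi0 h3
    refine h4.mono ?_
    rintro ⟨i, j⟩ hp
    have hj0 : 0 ≤ j := hp.1
    rcases hsub i j hp with g | g | g | g
    · exact Or.inr g
    · left
      rw [if_pos (by omega), g.2]
      have : j = ((d / 5 : ℕ) : ℤ) := by omega
      rw [this]
    · exfalso; omega
    · left
      rw [if_neg (by omega), g.2]
      have : j = ((d / 5 : ℕ) : ℤ) := by omega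
      rw [this]
  · obtain ⟨w1, hw1⟩ : ∃ w1, w1 = Function.update w i0 (w i0 - 1) := ⟨_, rfl⟩
    have hj1 : 1 ≤ w1 j0 := by
      rw [hw1, Function.update_of_ne (Ne.symm hij)]
      exact hj0
    have s0 := sum_upd hi0
    have s1 := sum_upd hj1
    rw [← hw1] at s0
    have h3 : Emp (Function.update w1 j0 (w1 j0 - 1)) (Tri τ ((d : ℝ) - 1)) := by
      refine Emp_Tri hn hk (by linarith) ?_
      linarith
    have h4 := hX ι w1 j0 _ (if d % 5 = 0 then (0, ((d / 5 : ℕ) : ℤ)) else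
      if d % 5 = 1 then (-1, ((d / 5 : ℕ) : ℤ)) else (-2, ((d / 5 : ℕ) : ℤ)))
      (Tri_finite _ _) hj1 h3
    rw [hw1] at h4
    have h5 := hX ι w i0 _ (1, ((d / 5 : ℕ) : ℤ)) ((Tri_finite _ _).insert _) hi0 h4
    refine h5.mono ?_
    rintro ⟨i, j⟩ hp
    have hj0 : 0 ≤ j := hp.1
    rcases hsub i j hp with g | g | g | g
    · exact Or.inr (Or.inr g)
    · right; left
      rw [if_pos (by omega), g.2]
      have : j = ((d / 5 : ℕ) : ℤ) := by omega
      rw [this]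
    · have h6 : j = ((d / 5 : ℕ) : ℤ) := by omega
      rcases g.2 with g2 | g2
      · right; left
        rw [if_neg (by omega), if_pos (by omega), g2, h6]
      · left
        rw [g2, h6]
    · right; left
      rw [if_neg (by omega), if_neg (by omega), g.2]
      have : j = ((d / 5 : ℕ) : ℤ) := by omega
      rw [this]

end Pool.Agent.L7h43.QU
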