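import Pool.Agent.L7h43.QU.Low
import Pool.Agent.L7h43.QU.Nag
import Pool.Agent.L7h52.NQ.Asm
import Pool.Agent.L7h14.QX.Stm

/-! 27 points: the windows. -/

set_option autoImplicit false

namespace Pool.Agent.L7h43.QU

open Finset Pool.Agent.TH176.Nag Pool.Agent.TH603.Sur Pool.Agent.TH603.Cut Pool.Agent.TH469.SX
open Pool.Agent.TH864.SX (Slp)
open Pool.Agent.L7h14.QX (Az5 S_ONEZ5)

theorem B5_finite (M : ℕ) (hM : 0 < M) (K : ℝ) (d : ℕ) : (B5 M K d).Finite := by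
  have hM' : (0 : ℝ) < M := by exact_mod_cast hM
  have h := Pool.Agent.TH469.SX.Reg_finite (α := (K - M) * (((d : ℝ) - 1) / 5))
    (β := K * (((d : ℝ) - 1) / 5)) (μ := -(K - M)) (ν := K) (by linarith)
  refine h.subset ?_
  rintro ⟨i, j⟩ ⟨g1, g2, g3⟩
  simp only at g1 g2 g3
  refine ⟨g1, ?_, ?_⟩
  · simp only; linarith
  · simp only; linarith

/-- **27 points: emptiness or independence** -/
theorem dich27' (P : Parts) (hO : Pool.Agent.L7h52.NQ.S_ONEX) (hZ : S_ONEZ5) {m d : ℕ}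
    (hG : ¬ (√((27 : ℕ) : ℝ) * (2 * d + 3) < 27 * (2 * m + 1) ∧
      (d % 5 = 0 ∧ 27 * (2 * (m : ℝ) + 1) - 2 ≤ √((27 : ℕ) : ℝ) * (2 * d + 3) ∨
        d % 5 = 1 ∧ 1 - 2 / √((27 : ℕ) : ℝ) ≤ (d : ℝ) - √((27 : ℕ) : ℝ) * m ∨
        d % 5 = 2 ∧ 1 ≤ (d : ℝ) - √((27 : ℕ) : ℝ) * m))) :
    Emp (fun _ : Fin 27 => m) (TZ d) ∨ Sur (fun _ : Fin 27 => m) (TZ d) := by
  rcases Nat.eq_zero_or_pos d with rfl | hd
  · exact Pool.Agent.L7h52.NQ.dich_zero (by norm_num) m
  have hd1 : (1 : ℝ) ≤ d := by exact_mod_cast hd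
  obtain ⟨r, hr⟩ : ∃ r : ℝ, r = √((27 : ℕ) : ℝ) := ⟨_, rfl⟩
  have hr0 : 0 ≤ r := by rw [hr]; exact Real.sqrt_nonneg _
  have hr2 : r * r = 27 := by rw [hr]; exact_mod_cast sqn 27
  have hr3 : 5.1 < r := by nlinarith
  have hr4 : r < 5.2 := by nlinarith
  rw [← hr] at hG
  have hsl := slp27
  have hlt := lt27
  rw [← hr] at hsl hlt
  obtain ⟨K, hK⟩ : ∃ K : ℝ, K = (((25 : ℕ) : ℝ) + (5 : ℕ) * r) / 2 := ⟨_, rfl⟩
  rw [← hK] at hsl hlt
  push_cast at hK
  have hK0 := hsl.K0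
  have hKe : ((2 : ℕ) : ℝ) * (K * (K - ((25 : ℕ) : ℝ))) = ((25 : ℕ) : ℝ) := hsl.eq
  have hK25 : (25 : ℝ) < K := by have := hsl.hMK; push_cast at this; exact this
  -- the critical height
  have hcrit : 2 * AA K d - (2 * m * (K + 1) + 1) =
      (25 + 5 * r) / (5 * r) * ((r * (2 * d + 3) - 27 * (2 * m + 1)) / 2) := by
    unfold AA
    rw [hK]
    have : r ≠ 0 := by linarith
    field_simp
    linear_combination (-(50 : ℝ) * m - 25) * hr2
  have hc0 : 0 < (25 + 5 * r) / (5 * r) := by positivity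
  rcases le_or_gt (27 * (2 * (m : ℝ) + 1)) (r * (2 * d + 3)) with h1 | h1
  · right
    refine one_sur P (b := 27) hsl hlt (Sur_blk (p := 1) (M := 25) rfl hK0 hKe (by simp) ?_)
    have h2 : 0 ≤ (25 + 5 * r) / (5 * r) * ((r * (2 * d + 3) - 27 * (2 * m + 1)) / 2) :=
      mul_nonneg hc0.le (by linarith)
    push_cast
    linarith
  left
  have h2 : (25 + 5 * r) / (5 * r) * ((r * (2 * d + 3) - 27 * (2 * m + 1)) / 2) < 0 :=
    mul_neg_of_pos_of_neg hc0 (by linarith)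
  by_cases h5 : 3 ≤ d % 5
  · refine one_emp P (b := 27) hsl hlt h5 (Emp_blk (p := 1) (M := 25) rfl hK0 hKe (by simp) ?_)
    push_cast
    linarith
  by_cases h52 : d % 5 = 2
  · refine one_emp2 P (b := 27) hsl hlt h52
      (Emp_apex (p := 1) (M := 25) rfl hK0 hKe (by simp) (AA_nonneg hK0 hd) ?_)
    have h3 : (d : ℝ) - r * m < 1 := by
      by_contra hcon
      exact hG ⟨h1, Or.inr (Or.inr ⟨h52, not_lt.1 hcon⟩)⟩
    unfold AA
    have h4 : K * (((d : ℝ) - 1) / 5) < K * (r * m / 5) :=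
      mul_lt_mul_of_pos_left (by linarith) hK0
    refine h4.trans_eq ?_
    rw [hK]
    push_cast
    linear_combination (m : ℝ) / 2 * hr2
  by_cases h51 : d % 5 = 1
  · have h3 : (d : ℝ) - r * m < 1 - 2 / r := by
      by_contra hcon
      exact hG ⟨h1, Or.inr (Or.inl ⟨h51, not_lt.1 hcon⟩)⟩
    have hm : 1 ≤ m := by
      rcases Nat.eq_zero_or_pos m with h0 | h0
      · exfalso
        rw [h0] at h3
        have : 0 < 2 / r := by positivity
        push_cast at h3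
        linarith
      · exact h0
    refine nag25z P.emp hO (by simp) (Or.inr ⟨⟨0, 1, by decide, hm, hm⟩, ?_⟩)
    rw [Finset.sum_const, Finset.card_univ, Fintype.card_fin, nsmul_eq_mul, ← hr]
    have h4 : r * ((d : ℝ) - r * m) < r * (1 - 2 / r) := mul_lt_mul_of_pos_left h3 (by linarith)
    have h6 : r * (1 - 2 / r) = r - 2 := by field_simp
    rw [h6] at h4
    have h7 : r * ((d : ℝ) - r * m) = r * d - 27 * m := by
      linear_combination (-(m : ℝ)) * hr2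
    rw [h7] at h4
    push_cast
    linarith
  have h50 : d % 5 = 0 := by omega
  have h3 : r * (2 * d + 3) < 27 * (2 * (m : ℝ) + 1) - 2 := by
    by_contra hcon
    exact hG ⟨h1, Or.inl ⟨h50, not_lt.1 hcon⟩⟩
  have hm : 1 ≤ m := by
    rcases Nat.eq_zero_or_pos m with h0 | h0
    · exfalso
      rw [h0] at h3
      push_cast at h3
      nlinarith
    · exact h0
  have hlow := Emp_low (ι := Fin 27) (p := 1) (q := 2) (M := 25) (m := m) (K := K) (A := AA K d) rfl hK0 hKe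
    (by simp) 0 (by
      push_cast
      have h4 : 2 * (AA K d - m * (K + 1)) =
          1 + (25 + 5 * r) / (5 * r) * ((r * (2 * d + 3) - 27 * (2 * m + 1)) / 2) := by
        linarith
      have h6 : (25 + 5 * r) / (5 * r) * ((r * (2 * d + 3) - 27 * (2 * m + 1)) / 2) <
          (25 + 5 * r) / (5 * r) * (-2 / 2) := mul_lt_mul_of_pos_left (by linarith) hc0
      rw [h4]
      have h8 : (K + 1) * (1 + (25 + 5 * r) / (5 * r) * (-2 / 2)) = K + 1 - (2 * (K + 1) - 1) := by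
        rw [hK]
        have : r ≠ 0 := by linarith
        field_simp
        linear_combination (25 : ℝ) * hr2
      have h9 : (K + 1) * (1 + (25 + 5 * r) / (5 * r) * ((r * (2 * d + 3) - 27 * (2 * m + 1)) / 2)) <
          (K + 1) * (1 + (25 + 5 * r) / (5 * r) * (-2 / 2)) :=
        mul_lt_mul_of_pos_left (by linarith) (by linarith)
      linarith)
  have h6 := (P.fle 25 2 K d (Fin 27) _ hsl (by omega)).1 hlow
  have h7 := hO (Fin 27) (fun _ => m) 0 (B5 25 K d) (-1, ((d / 5 : ℕ) : ℤ)) (B5_finite 25 (by norm_num) K d)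
    hm h6
  have h8 := (hZ K d hsl.irr hK25 hlt (by omega)).1 (Fin 27) (fun _ => m) (h7.mono ?_)
  · exact P.emp _ _ d ((30 - K) / 25) (by linarith) (by linarith) h8
  · rintro ⟨i, j⟩ (hp | ⟨g1, g2, g3⟩)
    · exact Or.inr hp
    · left
      simp only at g1 g3
      have : j = ((d / 5 : ℕ) : ℤ) := by omega
      rw [g1, this]

end Pool.Agent.L7h43.QU
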