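import Pool.Agent.L7h43.QU.Stm
import Pool.Agent.L7h52.NQ.Dich
import Pool.Agent.TH603.EL.Fin
import Pool.Agent.TH864.SX.Eleven

/-! The assembly: 29, 27 and 35 points. -/

set_option autoImplicit false

namespace Pool.Agent.L7h43.QU

open Finset Pool.Agent.TH176.Nag Pool.Agent.TH603.Sur Pool.Agent.TH603.Cut
open Pool.Agent.TH864.SX (Slp)
open Pool.Agent.TH469.SX

/-- what the parts give -/
structure Parts : Prop where
  emp : S_EMP
  sur : S_SUR
  fle : S_FLE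
  fls : S_FLS
  one : S_ONE
  five : S_FIVE

/-- the height of the cut -/
noncomputable def AA (K : ℝ) (d : ℕ) : ℝ := K * ((d - 1) / 5)

theorem AA_nonneg {K : ℝ} (hK : 0 < K) {d : ℕ} (hd : 1 ≤ d) : 0 ≤ AA K d := by
  have : (1 : ℝ) ≤ d := by exact_mod_cast hd
  unfold AA
  apply mul_nonneg hK.le
  linarith

theorem Sur_fin {ι : Type} [Fintype ι] {n : ℕ} {m : ℕ} {w : ι → ℕ} (hw : ∀ i, w i = m)
    (hn : Fintype.card ι = n) {S : Set (ℤ × ℤ)} (h : Sur w S) : Sur (fun _ : Fin n => m) S := by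
  obtain ⟨T, h1, h2, h3⟩ := h
  have e : ι ≃ Fin n := Fintype.equivFinOfCardEq hn
  refine ⟨T, h1, ?_, Emp_emb (g := e) e.injective (fun i => (hw i).le) h3⟩
  rw [h2]
  unfold Pool.Agent.TH603.Sur.cond
  simp only [hw]
  rw [Finset.sum_const, Finset.sum_const, Finset.card_univ, Finset.card_univ, hn, Fintype.card_fin]

theorem Emp_fin {ι : Type} [Fintype ι] {n : ℕ} {m : ℕ} {w : ι → ℕ} (hw : ∀ i, w i = m)
    (hn : Fintype.card ι = n) {S : Set (ℤ × ℤ)} (h : Emp w S) : Emp (fun _ : Fin n => m) S := by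
  have e : ι ≃ Fin n := Fintype.equivFinOfCardEq hn
  exact Emp_emb (g := e) e.injective (fun i => (hw i).le) h

/-! ### the slopes -/

theorem irr_half {n : ℕ} (hn : ¬ IsSquare n) (a b : ℕ) (hb : b ≠ 0) :
    Irrational (((a : ℝ) + b * √(n : ℝ)) / 2) := by
  have h := irrational_sqrt_natCast_iff.2 hn
  have := ((h.natCast_mul hb).natCast_add a).div_natCast (m := 2) (by norm_num)
  push_cast at this
  exact this

theorem nsq29 : ¬ IsSquare (29 : ℕ) := by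
  rintro ⟨a, ha⟩
  have : a < 6 := by nlinarith
  interval_cases a <;> omega
theorem nsq27 : ¬ IsSquare (27 : ℕ) := by
  rintro ⟨a, ha⟩
  have : a < 6 := by nlinarith
  interval_cases a <;> omega
theorem nsq35 : ¬ IsSquare (35 : ℕ) := by
  rintro ⟨a, ha⟩
  have : a < 6 := by nlinarith
  interval_cases a <;> omega

theorem sqn (n : ℕ) : √(n : ℝ) * √(n : ℝ) = n := Real.mul_self_sqrt (Nat.cast_nonneg n)

/-- 29 points -/
theorem slp29 : Slp 25 1 ((((25 : ℕ) : ℝ) + (5 : ℕ) * √((29 : ℕ) : ℝ)) / 2) := by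
  have h0 : 0 ≤ √((29 : ℕ) : ℝ) := Real.sqrt_nonneg _
  refine ⟨by norm_num, by norm_num, ?_, ?_, irr_half nsq29 25 5 (by norm_num)⟩
  · have hq := sqn 29; push_cast at *; nlinarith
  · have hq := sqn 29; push_cast at *; nlinarith

theorem lt29 : (((25 : ℕ) : ℝ) + (5 : ℕ) * √((29 : ℕ) : ℝ)) / 2 < 26 := by
  have h0 : 0 ≤ √((29 : ℕ) : ℝ) := Real.sqrt_nonneg _
  have hq := sqn 29; push_cast at *; nlinarith

/-- 27 points -/
theorem slp27 : Slp 25 2 ((((25 : ℕ) : ℝ) + (5 : ℕ) * √((27 : ℕ) : ℝ)) / 2) := by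
  have h0 : 0 ≤ √((27 : ℕ) : ℝ) := Real.sqrt_nonneg _
  refine ⟨by norm_num, by norm_num, ?_, ?_, irr_half nsq27 25 5 (by norm_num)⟩
  · have hq := sqn 27; push_cast at *; nlinarith
  · have hq := sqn 27; push_cast at *; nlinarith

theorem lt27 : (((25 : ℕ) : ℝ) + (5 : ℕ) * √((27 : ℕ) : ℝ)) / 2 < 26 := by
  have h0 : 0 ≤ √((27 : ℕ) : ℝ) := Real.sqrt_nonneg _
  have hq := sqn 27; push_cast at *; nlinarith

/-- 35 points, five sectors -/
theorem slp35 : Slp 5 2 ((((5 : ℕ) : ℝ) + (1 : ℕ) * √((35 : ℕ) : ℝ)) / 2) := by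
  have h0 : 0 ≤ √((35 : ℕ) : ℝ) := Real.sqrt_nonneg _
  refine ⟨by norm_num, by norm_num, ?_, ?_, irr_half nsq35 5 1 (by norm_num)⟩
  · have hq := sqn 35; push_cast at *; nlinarith
  · have hq := sqn 35; push_cast at *; nlinarith

theorem lt35 : (((5 : ℕ) : ℝ) + (1 : ℕ) * √((35 : ℕ) : ℝ)) / 2 < 6 := by
  have h0 : 0 ≤ √((35 : ℕ) : ℝ) := Real.sqrt_nonneg _
  have hq := sqn 35; push_cast at *; nlinarith

variable (P : Parts)
include P

/-- one sector, emptiness -/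
theorem one_emp {K : ℝ} {q b m d : ℕ} (h : Slp 25 q K) (h26 : K < 26) (h5 : 3 ≤ d % 5)
    (hE : Emp (fun _ : Fin b => m) (Fl q K (AA K d))) : Emp (fun _ : Fin b => m) (TZ d) := by
  have h25 : (25 : ℝ) < K := by have := h.hMK; push_cast at this; exact this
  have h1 := (P.fle 25 q K d (Fin b) (fun _ => m) h (by omega)).1 hE
  have h2 := (P.one K d h.irr h25 h26).1 (by omega) (Fin b) (fun _ => m) h1
  exact P.emp _ _ d ((35 - K) / 25) (by linarith) (by linarith) h2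

/-- one sector, emptiness, degrees `2` modulo `5` -/
theorem one_emp2 {K : ℝ} {q b m d : ℕ} (h : Slp 25 q K) (h26 : K < 26) (h5 : d % 5 = 2)
    (hE : Emp (fun _ : Fin b => m) (Fl q K (AA K d) ∪ {((0, 0) : ℤ × ℤ)})) :
    Emp (fun _ : Fin b => m) (TZ d) := by
  have h25 : (25 : ℝ) < K := by have := h.hMK; push_cast at this; exact this
  have h1 := (P.fle 25 q K d (Fin b) (fun _ => m) h (by omega)).2 hE
  have h2 := (P.one K d h.irr h25 h26).2.1 (by omega) (Fin b) (fun _ => m) h1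
  exact P.emp _ _ d ((35 - K) / 25) (by linarith) (by linarith) h2

/-- one sector, independence -/
theorem one_sur {K : ℝ} {q b m d : ℕ} (h : Slp 25 q K) (h26 : K < 26)
    (hS : Sur (fun _ : Fin b => m) (Fl q K (AA K d))) :
    Sur (fun _ : Fin b => m) (TZ d) := by
  have h25 : (25 : ℝ) < K := by have := h.hMK; push_cast at this; exact this
  have h0 := P.fls 25 q K d (Fin b) (fun _ => m) h hS
  have h2 := (P.one K d h.irr h25 h26).2.2 (Fin b) (fun _ => m) h0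
  have hirr : Irrational ((35 - K) / 25) := by
    have := (h.irr.natCast_sub 35).div_natCast (m := 25) (by norm_num)
    simpa using this
  exact P.sur _ _ d ((35 - K) / 25) (by linarith) (by linarith) hirr h2

/-- five sectors, emptiness -/
theorem five_emp {K : ℝ} {q b m d : ℕ} (h : Slp 5 q K) (h6 : K < 6) (h5 : 3 ≤ d % 5)
    (hE : Emp (fun _ : Fin b => m) (Fl q K (AA K d))) : Emp (fun _ : Fin (5 * b) => m) (TZ d) := by
  have hK5 : (5 : ℝ) < K := by have := h.hMK; push_cast at this; exact this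
  have h1 := (P.fle 5 q K d (Fin b) (fun _ => m) h (by omega)).1 hE
  have h2 := (P.five K d h.irr hK5 h6 (by omega)).1 (Fin b) (fun _ => m) h1
  have h3 := P.emp _ _ d ((15 - K) / 25) (by linarith) (by linarith) h2
  exact Emp_fin (ι := ((((Fin b ⊕ Fin b) ⊕ Fin b) ⊕ Fin b) ⊕ Fin b))
    (by rintro ((((i | i) | i) | i) | i) <;> rfl) (by simp; omega) h3

/-- five sectors, independence -/
theorem five_sur {K : ℝ} {q b m d : ℕ} (h : Slp 5 q K) (h6 : K < 6) (h5 : 3 ≤ d % 5)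
    (hS : Sur (fun _ : Fin b => m) (Fl q K (AA K d))) : Sur (fun _ : Fin (5 * b) => m) (TZ d) := by
  have hK5 : (5 : ℝ) < K := by have := h.hMK; push_cast at this; exact this
  have h1 := P.fls 5 q K d (Fin b) (fun _ => m) h hS
  have h2 := (P.five K d h.irr hK5 h6 (by omega)).2 (Fin b) (fun _ => m) h1
  have hirr : Irrational ((15 - K) / 25) := by
    have := (h.irr.natCast_sub 15).div_natCast (m := 25) (by norm_num)
    simpa using this
  have h3 := P.sur _ _ d ((15 - K) / 25) (by linarith) (by linarith) hirr h2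
  exact Sur_fin (ι := ((((Fin b ⊕ Fin b) ⊕ Fin b) ⊕ Fin b) ⊕ Fin b))
    (by rintro ((((i | i) | i) | i) | i) <;> rfl) (by simp; omega) h3

/-- **29 points** -/
theorem dich29 {m d : ℕ} (h5 : 2 ≤ d % 5) :
    Emp (fun _ : Fin 29 => m) (TZ d) ∨ Sur (fun _ : Fin 29 => m) (TZ d) := by
  have hd : 1 ≤ d := by omega
  rcases Pool.Agent.L7h52.NQ.s_DICH 25 _ (AA _ d) m slp29 (AA_nonneg slp29.K0 hd) with h | h
  · by_cases h2 : d % 5 = 2
    · exact Or.inl (one_emp2 P (b := 29) slp29 lt29 h2 h)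
    · exact Or.inl (one_emp P (b := 29) slp29 lt29 (by omega) (h.mono Set.subset_union_left))
  · exact Or.inr (one_sur P (b := 29) slp29 lt29 h)

/-- **27 points** -/
theorem dich27 {m d : ℕ} (h5 : 3 ≤ d % 5) :
    Emp (fun _ : Fin 27 => m) (TZ d) ∨ Sur (fun _ : Fin 27 => m) (TZ d) := by
  obtain ⟨K, hK⟩ : ∃ K : ℝ, K = (((25 : ℕ) : ℝ) + (5 : ℕ) * √((27 : ℕ) : ℝ)) / 2 := ⟨_, rfl⟩
  have hsl := slp27
  have hlt := lt27
  rw [← hK] at hsl hlt
  have hKe : ((2 : ℕ) : ℝ) * (K * (K - ((25 : ℕ) : ℝ))) = ((25 : ℕ) : ℝ) := hsl.eq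
  rcases lt_or_ge (((2 : ℕ) : ℝ) * AA K d) ((2 : ℕ) * (m : ℝ) * (K + (1 : ℕ)) + 1) with h | h
  · exact Or.inl (one_emp P (b := 27) hsl hlt h5
      (Emp_blk (p := 1) (M := 25) rfl hsl.K0 hKe (by simp) h))
  · exact Or.inr (one_sur P (b := 27) hsl hlt
      (Sur_blk (p := 1) (M := 25) rfl hsl.K0 hKe (by simp) h))

/-- **35 points** -/
theorem dich35 {m d : ℕ} (h5 : 3 ≤ d % 5) :
    Emp (fun _ : Fin 35 => m) (TZ d) ∨ Sur (fun _ : Fin 35 => m) (TZ d) := by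
  obtain ⟨K, hK⟩ : ∃ K : ℝ, K = (((5 : ℕ) : ℝ) + (1 : ℕ) * √((35 : ℕ) : ℝ)) / 2 := ⟨_, rfl⟩
  have hsl := slp35
  have hlt := lt35
  rw [← hK] at hsl hlt
  have hKe : ((2 : ℕ) : ℝ) * (K * (K - ((5 : ℕ) : ℝ))) = ((5 : ℕ) : ℝ) := hsl.eq
  rcases lt_or_ge (((2 : ℕ) : ℝ) * AA K d) ((2 : ℕ) * (m : ℝ) * (K + (1 : ℕ)) + 1) with h | h
  · exact Or.inl (five_emp P (b := 7) hsl hlt h5
      (Emp_blk (p := 1) (M := 5) rfl hsl.K0 hKe (by simp) h))
  · exact Or.inr (five_sur P (b := 7) hsl hlt h5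
      (Sur_blk (p := 1) (M := 5) rfl hsl.K0 hKe (by simp) h))

end Pool.Agent.L7h43.QU
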